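import Pool.Agent.Lib.MP_42948a_nt.MV.S2

/-!
# From the sieve weights to the rough numbers (job C1)

`χ n = 0` for `n` not coprime to `d` (so the sum over `Ioc A B` is a sum over the `n` coprime to `d`). `∑_{rg} χ n/n = ∑_{n coprime} rho n/n χ n - ∑_{n coprime} (rho n - [n rough])/n χ n`, `rho n ≥ [n rough]` (`rho_ge_one`, `rho_nonneg`, `TQ/B5.lean`), `‖χ n‖ ≤ 1`.
-/

namespace Pool.Agent.Lib.MP_42948a_nt.MV

open Finset Pool.Agent.Lib.MP_42948a_nt.OA Pool.Agent.Lib.MP_42948a_nt.AC Pool.Agent.Lib.MP_42948a_nt.TQ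
  Pool.Agent.Lib.MP_42948a_nt.PS Pool.Agent.Lib.MP_42948a_nt.EK

open Classical in
theorem upper_sum {τ : ℝ} {K z : ℕ} {u l : Finset ℕ → ℝ} (hF : Fund τ K z u l) (d : ℕ) [NeZero d] (χ : DirichletCharacter ℂ d) (A B : ℕ) :
    ‖∑ n ∈ rg d z A B, ((1 / (n : ℝ) : ℝ) : ℂ) * χ (n : ZMod d)‖ ≤
      ‖∑ n ∈ Ioc A B, ((rho z u n / n : ℝ) : ℂ) * χ (n : ZMod d)‖ +
        (∑ n ∈ (Ioc A B).filter (fun n : ℕ => n.Coprime d), rho z u n / n - MS d z A B) := by
  obtain ⟨C, hC⟩ : ∃ C : Finset ℕ, C = (Ioc A B).filter (fun n : ℕ => n.Coprime d) := ⟨_, rfl⟩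
  have hrg : rg d z A B = C.filter (fun n : ℕ => Rough z n) := by
    ext n
    rw [mem_rg, hC, mem_filter, mem_filter, mem_Ioc]
    exact ⟨fun h => ⟨⟨h.1, h.2.1⟩, h.2.2⟩, fun h => ⟨h.1.1, h.1.2, h.2⟩⟩
  have h1 : ∑ n ∈ Ioc A B, ((rho z u n / n : ℝ) : ℂ) * χ (n : ZMod d) =
      ∑ n ∈ C, ((rho z u n / n : ℝ) : ℂ) * χ (n : ZMod d) := by
    rw [hC]
    symm
    refine Finset.sum_subset (Finset.filter_subset _ _) ?_
    intro n hn hn'
    have h2 : ¬ n.Coprime d := fun h => hn' (mem_filter.2 ⟨hn, h⟩)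
    have h3 : χ (n : ZMod d) = 0 := χ.map_nonunit (fun h => h2 ((ZMod.isUnit_iff_coprime n d).1 h))
    rw [h3, mul_zero]
  have h2 : ∑ n ∈ rg d z A B, ((1 / (n : ℝ) : ℝ) : ℂ) * χ (n : ZMod d) =
      ∑ n ∈ C, (((if Rough z n then 1 / (n : ℝ) else 0) : ℝ) : ℂ) * χ (n : ZMod d) := by
    rw [hrg, Finset.sum_filter]
    refine Finset.sum_congr rfl fun n _ => ?_
    by_cases h : Rough z n
    · rw [if_pos h, if_pos h]
    · rw [if_neg h, if_neg h, Complex.ofReal_zero, zero_mul]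
  have h3 : MS d z A B = ∑ n ∈ C, (if Rough z n then 1 / (n : ℝ) else 0) := by
    unfold MS
    rw [hrg, Finset.sum_filter]
  have h4 : ∑ n ∈ C, (((if Rough z n then 1 / (n : ℝ) else 0) : ℝ) : ℂ) * χ (n : ZMod d) =
      ∑ n ∈ C, ((rho z u n / n : ℝ) : ℂ) * χ (n : ZMod d) -
        ∑ n ∈ C, ((rho z u n / n - (if Rough z n then 1 / (n : ℝ) else 0) : ℝ) : ℂ) * χ (n : ZMod d) := by
    rw [← Finset.sum_sub_distrib]
    refine Finset.sum_congr rfl fun n _ => ?_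
    rw [Complex.ofReal_sub]
    ring
  have h5 : ‖∑ n ∈ C, ((rho z u n / n - (if Rough z n then 1 / (n : ℝ) else 0) : ℝ) : ℂ) * χ (n : ZMod d)‖ ≤
      ∑ n ∈ C, (rho z u n / n - (if Rough z n then 1 / (n : ℝ) else 0)) := by
    refine (norm_sum_le _ _).trans (Finset.sum_le_sum fun n _ => ?_)
    have h6 : 0 ≤ rho z u n / n - (if Rough z n then 1 / (n : ℝ) else 0) := by
      by_cases h : Rough z n
      · rw [if_pos h, ← sub_div]
        have := rho_ge_one hF h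
        exact div_nonneg (by linarith) (Nat.cast_nonneg _)
      · rw [if_neg h, sub_zero]
        exact div_nonneg (rho_nonneg hF n) (Nat.cast_nonneg _)
    rw [norm_mul, Complex.norm_real, Real.norm_of_nonneg h6]
    calc (rho z u n / n - (if Rough z n then 1 / (n : ℝ) else 0)) * ‖χ (n : ZMod d)‖ ≤
        (rho z u n / n - (if Rough z n then 1 / (n : ℝ) else 0)) * 1 :=
          mul_le_mul_of_nonneg_left (DirichletCharacter.norm_le_one χ _) h6
      _ = _ := mul_one _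
  rw [Finset.sum_sub_distrib] at h5
  rw [h1, h2, h3, h4, ← hC]
  exact (norm_sub_le _ _).trans (add_le_add le_rfl h5)

end Pool.Agent.Lib.MP_42948a_nt.MV
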