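import Pool.Agent.Lib.MP_42948a_nt.MV.Defs

/-!
# The numbers with a prime factor in a set (job C2)

`big_prime`: `[P n] ≤ ∑_{p ∈ S, p ∣ n} 1` on `rg d z A B`, exchange the sums; the `n ∈ rg d z A B` divisible by `p` are `n = p m`, `m ∈ rg d z (A/p) (B/p)` (natural division: `Nat.div_lt_iff_lt_mul`, `Nat.le_div_iff_mul_le`; `Rough.of_dvd`, coprimality), an injective map,
so `∑_{n, p ∣ n} 1/n ≤ (1/p) MS d z (A/p) (B/p) ≤ (1/p) M`.
`smooth_part`: for `n ∈ rg d z A B` (so `1 ≤ n ≤ B`) and a prime `p`: `n.factorization p = #{j ∈ Icc 1 B : p^j ∣ n}` (`Nat.factorization_eq_card_pow_dvd` or `Nat.Prime.pow_dvd_iff_le_factorization`, `n.factorization p < n`), and `∑_{p ∈ n.primeFactors} (n.factorization p) f p = ∑_{p ∈ S} (n.factorization p) f p`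
if all primes of `n` are in `S` (the other terms vanish). Exchange: `≤ ∑_{p ∈ S} f p ∑_{j ∈ Icc 1 B} ∑_{n ∈ rg, p^j ∣ n} 1/n ≤ ∑_{p ∈ S} f p ∑_j p^(-j) M` (as above with `p^j` in place of `p`), `∑_{j ∈ Icc 1 B} p^(-j) ≤ 1/(p-1) ≤ 2/p`. (All terms are `≥ 0`, `M ≥ 0`.)
It may be convenient to prove first: `∀ q ≥ 1, ∑ n ∈ (rg d z A B).filter (q ∣ ·), 1/n ≤ 1/q * M`.
-/

namespace Pool.Agent.Lib.MP_42948a_nt.MV

open Finset Pool.Agent.Lib.MP_42948a_nt.OA Pool.Agent.Lib.MP_42948a_nt.AC Pool.Agent.Lib.MP_42948a_nt.TQ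
  Pool.Agent.Lib.MP_42948a_nt.PS Pool.Agent.Lib.MP_42948a_nt.EK

private theorem C2_mult (d z A B : ℕ) (M : ℝ) (hM : ∀ q : ℕ, 1 ≤ q → MS d z (A / q) (B / q) ≤ M)
    (q : ℕ) (hq : 1 ≤ q) :
    ∑ n ∈ (rg d z A B).filter (fun n => q ∣ n), 1 / (n : ℝ) ≤ 1 / (q : ℝ) * M := by
  have hqr : (0 : ℝ) < q := by exact_mod_cast hq
  have hdvd : ∀ n ∈ (rg d z A B).filter (fun n => q ∣ n), q * (n / q) = n := fun n hn =>
    Nat.mul_div_cancel' (mem_filter.1 hn).2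
  have h1 : ∑ n ∈ (rg d z A B).filter (fun n => q ∣ n), 1 / (n : ℝ) =
      ∑ n ∈ (rg d z A B).filter (fun n => q ∣ n), 1 / (q : ℝ) * (1 / ((n / q : ℕ) : ℝ)) := by
    refine sum_congr rfl fun n hn => ?_
    have h2 : ((q : ℝ)) * ((n / q : ℕ) : ℝ) = n := by exact_mod_cast hdvd n hn
    rw [← h2]
    ring
  rw [h1, ← mul_sum]
  refine mul_le_mul_of_nonneg_left ?_ (by positivity)
  have hinj : Set.InjOn (fun n => n / q) ((rg d z A B).filter (fun n => q ∣ n)) := by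
    intro a ha b hb hab
    have h2 := hdvd a ha
    have h3 := hdvd b hb
    have hab' : a / q = b / q := hab
    rw [← h2, ← h3, hab']
  have h2 : ∑ n ∈ (rg d z A B).filter (fun n => q ∣ n), 1 / ((n / q : ℕ) : ℝ) =
      ∑ m ∈ ((rg d z A B).filter (fun n => q ∣ n)).image (fun n => n / q), 1 / (m : ℝ) := by
    rw [sum_image hinj]
  rw [h2]
  refine le_trans ?_ (hM q hq)
  unfold MS
  refine sum_le_sum_of_subset_of_nonneg ?_ fun m _ _ => by positivity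
  intro m hm
  obtain ⟨n, hn, rfl⟩ := mem_image.1 hm
  have h3 := hdvd n hn
  obtain ⟨⟨a1, a2⟩, a3, a4⟩ := mem_rg.1 (mem_filter.1 hn).1
  have hmn : n / q ∣ n := Dvd.intro_left q h3
  rw [mem_rg]
  refine ⟨⟨?_, Nat.div_le_div_right a2⟩, Nat.Coprime.coprime_dvd_left hmn a3, a4.of_dvd hmn⟩
  rw [Nat.div_lt_iff_lt_mul hq, Nat.mul_comm, h3]
  exact a1

open Classical in
theorem big_prime (d z A B : ℕ) (M : ℝ) (hM : ∀ q : ℕ, 1 ≤ q → MS d z (A / q) (B / q) ≤ M) (S : Finset ℕ) (hS : ∀ p ∈ S, p.Prime)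
    (P : ℕ → Prop) (hP : ∀ n ∈ rg d z A B, P n → ∃ p ∈ S, p ∣ n) :
    ∑ n ∈ (rg d z A B).filter (fun n => P n), 1 / (n : ℝ) ≤ M * ∑ p ∈ S, 1 / (p : ℝ) := by
  have h1 : ∑ n ∈ (rg d z A B).filter (fun n => P n), 1 / (n : ℝ) ≤
      ∑ n ∈ rg d z A B, ∑ p ∈ S, if p ∣ n then 1 / (n : ℝ) else 0 := by
    rw [sum_filter]
    refine sum_le_sum fun n hn => ?_
    have hnn : ∀ p ∈ S, (0 : ℝ) ≤ if p ∣ n then 1 / (n : ℝ) else 0 := by
      intro p _
      split_ifs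
      · positivity
      · exact le_refl _
    by_cases hPn : P n
    · rw [if_pos hPn]
      obtain ⟨p, hp, hpn⟩ := hP n hn hPn
      have h2 := single_le_sum hnn hp
      rw [if_pos hpn] at h2
      exact h2
    · rw [if_neg hPn]
      exact sum_nonneg hnn
  refine h1.trans ?_
  rw [sum_comm, mul_sum]
  refine sum_le_sum fun p hp => ?_
  rw [← sum_filter, mul_comm]
  exact C2_mult d z A B M hM p (hS p hp).one_lt.le

private theorem C2_geom (p B : ℕ) (hp : p.Prime) :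
    ∑ j ∈ Icc 1 B, 1 / ((p ^ j : ℕ) : ℝ) ≤ 2 / (p : ℝ) := by
  have hp2 : (2 : ℝ) ≤ p := by exact_mod_cast hp.two_le
  have h1 : ∑ j ∈ Icc 1 B, 1 / ((p ^ j : ℕ) : ℝ) = ∑ j ∈ Ico 1 (B + 1), (1 / (p : ℝ)) ^ j := by
    refine sum_congr ?_ fun j _ => ?_
    · ext j
      simp only [mem_Icc, mem_Ico]
      omega
    · push_cast
      rw [one_div_pow]
  rw [h1]
  have h2 : (1 : ℝ) / p < 1 := by
    rw [div_lt_one (by linarith)]
    linarith
  refine (geom_sum_Ico_le_of_lt_one (by positivity) h2).trans ?_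
  rw [pow_one, div_le_div_iff₀ (by linarith) (by linarith)]
  have h3 : 1 / (p : ℝ) * p = 1 := by
    field_simp
  have h4 : 2 * (1 - 1 / (p : ℝ)) ≥ 1 := by
    have : 1 / (p : ℝ) ≤ 1 / 2 := one_div_le_one_div_of_le (by norm_num) hp2
    linarith
  linarith

open Classical in
theorem smooth_part (d z A B : ℕ) (M : ℝ) (hM : ∀ q : ℕ, 1 ≤ q → MS d z (A / q) (B / q) ≤ M) (S : Finset ℕ) (hS : ∀ p ∈ S, p.Prime)
    (f : ℕ → ℝ) (hf : ∀ p, 0 ≤ f p) :
    ∑ n ∈ (rg d z A B).filter (fun n => ∀ p : ℕ, p.Prime → p ∣ n → p ∈ S),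
        1 / (n : ℝ) * ∑ p ∈ n.primeFactors, (n.factorization p : ℝ) * f p ≤ 2 * M * ∑ p ∈ S, 1 / (p : ℝ) * f p := by
  have hM0 : 0 ≤ M := (MS_nonneg d z (A / 1) (B / 1)).trans (hM 1 le_rfl)
  have h1 : ∑ n ∈ (rg d z A B).filter (fun n => ∀ p : ℕ, p.Prime → p ∣ n → p ∈ S),
        1 / (n : ℝ) * ∑ p ∈ n.primeFactors, (n.factorization p : ℝ) * f p ≤
      ∑ n ∈ rg d z A B, ∑ p ∈ S, ∑ j ∈ Icc 1 B, if p ^ j ∣ n then 1 / (n : ℝ) * f p else 0 := by
    have hnn : ∀ n : ℕ, (0 : ℝ) ≤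
        ∑ p ∈ S, ∑ j ∈ Icc 1 B, if p ^ j ∣ n then 1 / (n : ℝ) * f p else 0 := by
      intro n
      refine sum_nonneg fun p _ => sum_nonneg fun j _ => ?_
      have := hf p
      split_ifs
      · positivity
      · exact le_refl _
    refine le_trans ?_ (sum_le_sum_of_subset_of_nonneg
      (filter_subset (fun n => ∀ p : ℕ, p.Prime → p ∣ n → p ∈ S) (rg d z A B))
      fun n _ _ => hnn n)
    refine sum_le_sum fun n hn => ?_
    obtain ⟨hn1, hn2⟩ := mem_filter.1 hn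
    obtain ⟨⟨_, hnB⟩, _, hR⟩ := mem_rg.1 hn1
    have hn0 : n ≠ 0 := hR.pos.ne'
    have h2 : ∑ p ∈ n.primeFactors, (n.factorization p : ℝ) * f p ≤
        ∑ p ∈ S, (n.factorization p : ℝ) * f p := by
      refine sum_le_sum_of_subset_of_nonneg ?_ fun p _ _ => mul_nonneg (Nat.cast_nonneg _) (hf p)
      intro p hp
      exact hn2 p (Nat.prime_of_mem_primeFactors hp) (Nat.dvd_of_mem_primeFactors hp)
    refine (mul_le_mul_of_nonneg_left h2 (by positivity)).trans ?_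
    rw [mul_sum]
    refine sum_le_sum fun p hp => ?_
    have h3 : (n.factorization p : ℝ) ≤ ∑ j ∈ Icc 1 B, if p ^ j ∣ n then (1 : ℝ) else 0 := by
      rw [sum_boole, Nat.factorization_eq_card_pow_dvd n (hS p hp)]
      have h4 : (Ico 1 n).filter (fun j => p ^ j ∣ n) ⊆ (Icc 1 B).filter (fun j => p ^ j ∣ n) := by
        intro j hj
        rw [mem_filter, mem_Ico] at hj
        rw [mem_filter, mem_Icc]
        exact ⟨⟨hj.1.1, by omega⟩, hj.2⟩
      exact_mod_cast card_le_card h4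
    have hfp := hf p
    calc 1 / (n : ℝ) * ((n.factorization p : ℝ) * f p)
        = (n.factorization p : ℝ) * (1 / (n : ℝ) * f p) := by ring
      _ ≤ (∑ j ∈ Icc 1 B, if p ^ j ∣ n then (1 : ℝ) else 0) * (1 / (n : ℝ) * f p) :=
          mul_le_mul_of_nonneg_right h3 (by positivity)
      _ = ∑ j ∈ Icc 1 B, if p ^ j ∣ n then 1 / (n : ℝ) * f p else 0 := by
          rw [sum_mul]
          refine sum_congr rfl fun j _ => ?_
          split_ifs
          · rw [one_mul]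
          · rw [zero_mul]
  refine h1.trans ?_
  rw [sum_comm, mul_sum]
  refine sum_le_sum fun p hp => ?_
  rw [sum_comm]
  have hp1 := (hS p hp).one_lt.le
  have hfp := hf p
  have h5 : ∀ j ∈ Icc 1 B, (∑ n ∈ rg d z A B, if p ^ j ∣ n then 1 / (n : ℝ) * f p else 0) ≤
      1 / ((p ^ j : ℕ) : ℝ) * (M * f p) := by
    intro j _
    rw [← sum_filter, ← sum_mul, ← mul_assoc]
    exact mul_le_mul_of_nonneg_right (C2_mult d z A B M hM (p ^ j) (Nat.one_le_pow _ _ hp1)) hfp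
  refine (sum_le_sum h5).trans ?_
  rw [← sum_mul]
  have h6 := C2_geom p B (hS p hp)
  calc (∑ j ∈ Icc 1 B, 1 / ((p ^ j : ℕ) : ℝ)) * (M * f p) ≤ 2 / (p : ℝ) * (M * f p) :=
        mul_le_mul_of_nonneg_right h6 (mul_nonneg hM0 hfp)
    _ = 2 * M * (1 / (p : ℝ) * f p) := by ring

end Pool.Agent.Lib.MP_42948a_nt.MV
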