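import Pool.Agent.Lib.MP_42948a_nt.MV.Defs

/-!
# The distance of `χ n` from `1` (job C3)

Induction (`Nat.recOnMul` or strong induction with `n.minFac`): `n = 1`: both sides `0` (`χ 1 = 1`). If `n = a b` with both inequalities, then `1 - χ(ab) = (1 - χ a) + χ a (1 - χ b)`, `‖χ a‖ ≤ 1`, so `‖1 - χ (ab)‖ ≤ ‖1 - χ a‖ + ‖1 - χ b‖`, and the right side is additive:
`∑_{p ∈ n.primeFactors} n.factorization p * f p = ∑ p ∈ n.factorization.support ..` i.e. `n.factorization.sum (fun p k => k * f p)` (`Nat.factorization_mul`, `Finsupp.sum_add_index'`). For a prime `n = p` equality (`Nat.Prime.factorization`).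
-/

namespace Pool.Agent.Lib.MP_42948a_nt.MV

open Finset Pool.Agent.Lib.MP_42948a_nt.OA Pool.Agent.Lib.MP_42948a_nt.AC Pool.Agent.Lib.MP_42948a_nt.TQ
  Pool.Agent.Lib.MP_42948a_nt.PS Pool.Agent.Lib.MP_42948a_nt.EK

theorem char_diff (d : ℕ) (χ : DirichletCharacter ℂ d) (n : ℕ) (hn : 0 < n) :
    ‖1 - χ (n : ZMod d)‖ ≤ ∑ p ∈ n.primeFactors, (n.factorization p : ℝ) * ‖1 - χ (p : ZMod d)‖ := by
  have key : ∀ n : ℕ, 0 < n → ‖1 - χ (n : ZMod d)‖ ≤
      n.factorization.sum (fun p k => (k : ℝ) * ‖1 - χ (p : ZMod d)‖) := by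
    intro n
    induction n using Nat.recOnMul with
    | zero => exact fun h => absurd h (lt_irrefl 0)
    | one =>
      intro _
      rw [Nat.factorization_one, Finsupp.sum_zero_index, Nat.cast_one, map_one, sub_self, norm_zero]
    | prime p hp =>
      intro _
      rw [hp.factorization, Finsupp.sum_single_index]
      · rw [Nat.cast_one, one_mul]
      · rw [Nat.cast_zero, zero_mul]
    | mul a b iha ihb =>
      intro hab
      have ha : 0 < a := Nat.pos_of_ne_zero fun h => by rw [h, zero_mul] at hab; exact lt_irrefl 0 hab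
      have hb : 0 < b := Nat.pos_of_ne_zero fun h => by rw [h, mul_zero] at hab; exact lt_irrefl 0 hab
      rw [Nat.factorization_mul ha.ne' hb.ne', Finsupp.sum_add_index']
      · have h1 : 1 - χ ((a * b : ℕ) : ZMod d) =
            (1 - χ (a : ZMod d)) + χ (a : ZMod d) * (1 - χ (b : ZMod d)) := by
          rw [Nat.cast_mul, map_mul]
          ring
        rw [h1]
        refine (norm_add_le _ _).trans (add_le_add (iha ha) ?_)
        rw [norm_mul]
        have h2 : ‖χ (a : ZMod d)‖ ≤ 1 := DirichletCharacter.norm_le_one χ _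
        exact (mul_le_of_le_one_left (norm_nonneg _) h2).trans (ihb hb)
      · intro p
        rw [Nat.cast_zero, zero_mul]
      · intro p k₁ k₂
        rw [Nat.cast_add, add_mul]
  exact key n hn

end Pool.Agent.Lib.MP_42948a_nt.MV
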