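import Pool.Agent.Lib.MP_42948a_nt.MV.Defs

/-!
# A character close to `1` on the primes has bounded order (job O1)

`α = c`, `U = primesOff d ⌊d^c⌋₊ ⌊d^(2c)⌋₊ ⊆ PW d c (33/200)` (`2 c ≤ 33/200`). `Wt U ≥ 1/20` for large `d` (`Wt_lower`, `PS/B1c.lean`). For `u ∈ U` (a prime not dividing `d`): `‖χ u‖ = 1` and `‖1 - (χ^j) u‖ ≤ j ‖1 - χ u‖` (induction on `j`:
`1 - x^(j+1) = (1 - x^j) + x^j (1 - x)`, `‖x‖ ≤ 1`). So `‖1 - Pa U (χ^j)‖ ≤ (1/Wt U) ∑_{u ∈ U} (1/u) ‖1 - (χ^j) u‖ ≤ (j/Wt U) ∑ (1/u) ‖1 - χ u‖ ≤ j (∑_{u ∈ U} (1/u) ‖1-χ u‖^2/Wt U)^(1/2) ≤ j (20 σ)^(1/2)` (Cauchy-Schwarz).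
Let `k = ⌈1/c⌉₊ + 1` (`1/2 + c ≤ k c`) and `C` from `tt_few c k` (`EK/T1.lean`) with `v = 1/2`: for large `d` the number of `χ` with `1/2 ≤ ‖SF (tt d c) χ‖` is `≤ C 4^k`; `tt_facts`: `‖SF (tt d c) χ‖ = ‖Pa U χ‖`. Let `M1 = ⌈C 4^k⌉₊ + 1`, `σ = 1/(100 M1^2)`.
Then for `j ≤ M1`: `‖Pa U (χ^j)‖ ≥ 1 - M1 (20 σ)^(1/2) ≥ 1/2`. The `M1 + 1` characters `χ^0, .., χ^M1` cannot be all different, so `χ^i = χ^j`, `i < j ≤ M1`, `χ^(j-i) = 1` (`DirichletCharacter ℂ d` is a group), and `m = M1!` works (`Nat.dvd_factorial`).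
-/

namespace Pool.Agent.Lib.MP_42948a_nt.MV

open Finset Pool.Agent.Lib.MP_42948a_nt.OA Pool.Agent.Lib.MP_42948a_nt.AC Pool.Agent.Lib.MP_42948a_nt.TQ
  Pool.Agent.Lib.MP_42948a_nt.PS Pool.Agent.Lib.MP_42948a_nt.EK

private theorem O1_norm_pow {x : ℂ} (hx : ‖x‖ ≤ 1) (j : ℕ) : ‖1 - x ^ j‖ ≤ j * ‖1 - x‖ := by
  induction j with
  | zero => simp
  | succ j ih =>
    have h1 : 1 - x ^ (j + 1) = (1 - x ^ j) + x ^ j * (1 - x) := by ring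
    have h2 : ‖x ^ j‖ ≤ 1 := by
      rw [norm_pow]
      exact pow_le_one₀ (norm_nonneg x) hx
    calc ‖1 - x ^ (j + 1)‖ ≤ ‖1 - x ^ j‖ + ‖x ^ j * (1 - x)‖ := by
          rw [h1]
          exact norm_add_le _ _
      _ ≤ j * ‖1 - x‖ + 1 * ‖1 - x‖ := by
          rw [norm_mul]
          exact add_le_add ih (mul_le_mul_of_nonneg_right h2 (norm_nonneg _))
      _ = ((j + 1 : ℕ) : ℝ) * ‖1 - x‖ := by
          push_cast
          ring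

private theorem O1_pow_apply {d : ℕ} [NeZero d] (χ : DirichletCharacter ℂ d) {u : ℕ} (hu : u.Coprime d) (j : ℕ) :
    (χ ^ j) (u : ZMod d) = χ (u : ZMod d) ^ j := by
  rw [← ZMod.coe_unitOfCoprime u hu]
  exact MulChar.pow_apply_coe χ j _

private theorem O1_sub (d : ℕ) (hd : 1 ≤ d) (c : ℝ) (hc1 : c ≤ 33 / 400) :
    primesOff d ⌊(d : ℝ) ^ c⌋₊ ⌊(d : ℝ) ^ (2 * c)⌋₊ ⊆ PW d c (33 / 200) := by
  classical
  intro p hp
  unfold primesOff at hp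
  rw [mem_filter, mem_Icc] at hp
  obtain ⟨⟨hp1, hp2⟩, hp3, hp4, hp5⟩ := hp
  unfold PW
  rw [mem_filter, mem_Icc]
  have e1 : (0 : ℝ) ≤ (d : ℝ) ^ c := Real.rpow_nonneg (Nat.cast_nonneg d) _
  have e2 : (d : ℝ) ^ (2 * c) ≤ (d : ℝ) ^ (33 / 200 : ℝ) :=
    Real.rpow_le_rpow_of_exponent_le (by exact_mod_cast hd) (by linarith)
  exact ⟨⟨hp1, hp2.trans (Nat.floor_le_floor e2)⟩, (Nat.floor_lt e1).1 hp4, hp3, hp5⟩

private theorem O1_close {d : ℕ} [NeZero d] (χ : DirichletCharacter ℂ d) (U : Finset ℕ)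
    (hU : ∀ u ∈ U, u.Coprime d) (hW : 1 / 20 ≤ Wt U) (M : ℕ) (hM : 1 ≤ M)
    (h : ∑ p ∈ U, rw1 p * ‖1 - χ (p : ZMod d)‖ ^ 2 < 1 / (100 * (M : ℝ) ^ 2)) (j : ℕ) (hj : j ≤ M) :
    1 / 2 ≤ ‖Pa U (χ ^ j)‖ := by
  set S : ℝ := ∑ p ∈ U, 1 / (p : ℝ) * ‖1 - χ (p : ZMod d)‖ with hS
  set T : ℝ := ∑ p ∈ U, rw1 p * ‖1 - χ (p : ZMod d)‖ ^ 2 with hT
  have hW0 : 0 < Wt U := by linarith
  have hMr : (1 : ℝ) ≤ M := by exact_mod_cast hM
  have hM0 : (0 : ℝ) < M := by linarith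
  have hS0 : 0 ≤ S := sum_nonneg fun p _ => by positivity
  have hCS : S ^ 2 ≤ Wt U * T := by
    refine Finset.sum_sq_le_sum_mul_sum_of_sq_le_mul U (fun p _ => by positivity)
      (fun p _ => ?_) (fun p _ => le_of_eq ?_)
    · unfold rw1
      positivity
    · unfold rw1
      ring
  have h1 : 2 * (M * S) ≤ Wt U := by
    have h2 : (2 * (M * S)) ^ 2 ≤ Wt U ^ 2 := by
      have h3 : Wt U * T ≤ Wt U * (1 / (100 * (M : ℝ) ^ 2)) := mul_le_mul_of_nonneg_left h.le hW0.le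
      have h4 : (2 * (M * S)) ^ 2 = 4 * (M : ℝ) ^ 2 * S ^ 2 := by ring
      have h5 : 4 * (M : ℝ) ^ 2 * S ^ 2 ≤ 4 * (M : ℝ) ^ 2 * (Wt U * (1 / (100 * (M : ℝ) ^ 2))) :=
        mul_le_mul_of_nonneg_left (hCS.trans h3) (by positivity)
      have h6 : 4 * (M : ℝ) ^ 2 * (Wt U * (1 / (100 * (M : ℝ) ^ 2))) = Wt U / 25 := by
        field_simp
        norm_num
      rw [h4]
      rw [h6] at h5
      nlinarith
    exact (pow_le_pow_iff_left₀ (by positivity) hW0.le two_ne_zero).1 h2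
  have h7 : 1 - Pa U (χ ^ j) = (∑ u ∈ U, ((1 / (u : ℝ) : ℝ) : ℂ) * (1 - χ (u : ZMod d) ^ j)) / ((Wt U : ℝ) : ℂ) := by
    have hWc : ((Wt U : ℝ) : ℂ) ≠ 0 := by exact_mod_cast hW0.ne'
    unfold Pa
    rw [eq_div_iff hWc, sub_mul, one_mul, div_mul_cancel₀ _ hWc]
    have h8 : ((Wt U : ℝ) : ℂ) = ∑ u ∈ U, ((1 / (u : ℝ) : ℝ) : ℂ) := by
      unfold Wt
      rw [Complex.ofReal_sum]
    rw [h8, ← Finset.sum_sub_distrib]
    refine sum_congr rfl fun u hu => ?_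
    rw [O1_pow_apply χ (hU u hu)]
    ring
  have h9 : ‖1 - Pa U (χ ^ j)‖ ≤ 1 / 2 := by
    rw [h7, norm_div, Complex.norm_real, Real.norm_of_nonneg hW0.le, div_le_iff₀ hW0]
    calc ‖∑ u ∈ U, ((1 / (u : ℝ) : ℝ) : ℂ) * (1 - χ (u : ZMod d) ^ j)‖
        ≤ ∑ u ∈ U, ‖((1 / (u : ℝ) : ℝ) : ℂ) * (1 - χ (u : ZMod d) ^ j)‖ := norm_sum_le _ _
      _ ≤ ∑ u ∈ U, (M : ℝ) * (1 / (u : ℝ) * ‖1 - χ (u : ZMod d)‖) := by
          refine sum_le_sum fun u _ => ?_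
          have h10 : (0 : ℝ) ≤ 1 / (u : ℝ) := by positivity
          rw [norm_mul, Complex.norm_real, Real.norm_of_nonneg h10]
          have h11 : ‖1 - χ (u : ZMod d) ^ j‖ ≤ (M : ℝ) * ‖1 - χ (u : ZMod d)‖ :=
            (O1_norm_pow (DirichletCharacter.norm_le_one χ _) j).trans
              (mul_le_mul_of_nonneg_right (by exact_mod_cast hj) (norm_nonneg _))
          calc 1 / (u : ℝ) * ‖1 - χ (u : ZMod d) ^ j‖ ≤ 1 / (u : ℝ) * ((M : ℝ) * ‖1 - χ (u : ZMod d)‖) :=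
                mul_le_mul_of_nonneg_left h11 h10
            _ = (M : ℝ) * (1 / (u : ℝ) * ‖1 - χ (u : ZMod d)‖) := by ring
      _ = (M : ℝ) * S := by rw [← Finset.mul_sum]
      _ ≤ 1 / 2 * Wt U := by linarith
  have h12 : ‖(1 : ℂ)‖ ≤ ‖1 - Pa U (χ ^ j)‖ + ‖Pa U (χ ^ j)‖ := by
    have h13 := norm_add_le (1 - Pa U (χ ^ j)) (Pa U (χ ^ j))
    rwa [sub_add_cancel] at h13
  rw [norm_one] at h12
  linarith

private theorem O1_large (c K : ℝ) (hc : 0 < c) : ∃ d0 : ℕ, ∀ d : ℕ, d0 ≤ d → K < (d : ℝ) ^ (c / 8) := by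
  have h1 : Filter.Tendsto (fun d : ℕ => (d : ℝ) ^ (c / 8)) Filter.atTop Filter.atTop :=
    (tendsto_rpow_atTop (by linarith)).comp tendsto_natCast_atTop_atTop
  exact Filter.eventually_atTop.1 (h1.eventually_gt_atTop K)

theorem bounded_order (c : ℝ) (hc : 0 < c) (hc1 : c ≤ 33 / 400) : ∃ m : ℕ, 1 ≤ m ∧ ∃ σ : ℝ, 0 < σ ∧ ∃ d0 : ℕ, ∀ d : ℕ, d0 ≤ d → ∀ [NeZero d],
    ∀ χ : DirichletCharacter ℂ d, ∑ p ∈ PW d c (33 / 200), rw1 p * ‖1 - χ (p : ZMod d)‖ ^ 2 < σ → χ ^ m = 1 := by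
  classical
  set k : ℕ := ⌈1 / c⌉₊ + 1 with hk
  have hkc : 1 / 2 + c ≤ k * c := by
    have h1 : 1 / c ≤ (⌈1 / c⌉₊ : ℝ) := Nat.le_ceil _
    have h2 : (k : ℝ) = (⌈1 / c⌉₊ : ℝ) + 1 := by
      rw [hk]
      push_cast
      ring
    rw [h2]
    have h3 : 1 ≤ (⌈1 / c⌉₊ : ℝ) * c := by
      rwa [div_le_iff₀ hc] at h1
    linarith
  obtain ⟨C, hC, d1, h1⟩ := tt_few c hc (by linarith) k hkc
  obtain ⟨d2, h2⟩ := tt_facts c hc
  obtain ⟨d3, h3⟩ := Wt_lower c hc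
  set v : ℝ := (1 / 2 : ℝ) ^ (2 * k) with hv
  have hv0 : 0 < v := by positivity
  obtain ⟨d4, h4⟩ := O1_large c (2 * C / v) hc
  set M : ℕ := ⌈C / v⌉₊ + 1 with hM
  have hM1 : 1 ≤ M := by omega
  have hMC : C / v < M := by
    have h5 : C / v ≤ (⌈C / v⌉₊ : ℝ) := Nat.le_ceil _
    have h6 : (M : ℝ) = (⌈C / v⌉₊ : ℝ) + 1 := by
      rw [hM]
      push_cast
      ring
    linarith
  refine ⟨M.factorial, Nat.one_le_iff_ne_zero.2 (Nat.factorial_ne_zero M), 1 / (100 * (M : ℝ) ^ 2), by positivity,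
    max 1 (max d1 (max d2 (max d3 d4))), fun d hd hne χ hχ => ?_⟩
  have e0 : 1 ≤ d := (le_max_left _ _).trans hd
  have hd' := (le_max_right _ _).trans hd
  have e1 : d1 ≤ d := (le_max_left _ _).trans hd'
  have hd'' := (le_max_right _ _).trans hd'
  have e2 : d2 ≤ d := (le_max_left _ _).trans hd''
  have hd3 := (le_max_right _ _).trans hd''
  have e3 : d3 ≤ d := (le_max_left _ _).trans hd3
  have e4 : d4 ≤ d := (le_max_right _ _).trans hd3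
  have f1 := h1 d e1 (1 / 2) (by norm_num) (by
    have h5 := h4 d e4
    rw [div_lt_iff₀ hv0] at h5
    rw [← hv, mul_comm v]
    exact h5)
  obtain ⟨-, -, f2, -⟩ := h2 d e2
  have f3 := h3 d e3
  have hUc : ∀ u ∈ primesOff d ⌊(d : ℝ) ^ c⌋₊ ⌊(d : ℝ) ^ (2 * c)⌋₊, u.Coprime d := by
    intro u hu
    unfold primesOff at hu
    rw [mem_filter] at hu
    exact (Nat.Prime.coprime_iff_not_dvd hu.2.1).2 hu.2.2.2
  have f4 : ∑ p ∈ primesOff d ⌊(d : ℝ) ^ c⌋₊ ⌊(d : ℝ) ^ (2 * c)⌋₊, rw1 p * ‖1 - χ (p : ZMod d)‖ ^ 2 < 1 / (100 * (M : ℝ) ^ 2) := by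
    refine lt_of_le_of_lt (sum_le_sum_of_subset_of_nonneg (O1_sub d e0 c hc1) fun p _ _ => ?_) hχ
    unfold rw1
    positivity
  have f5 : ∀ j ≤ M, 1 / 2 ≤ ‖SF (tt d c) (χ ^ j)‖ := by
    intro j hj
    rw [f2]
    exact O1_close χ _ hUc f3 M hM1 f4 j hj
  set F := (univ : Finset (DirichletCharacter ℂ d)).filter (fun ψ => 1 / 2 ≤ ‖SF (tt d c) ψ‖) with hF
  have f6 : F.card < (range (M + 1)).card := by
    rw [card_range]
    have f7 : (F.card : ℝ) ≤ C / v := by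
      rw [le_div_iff₀ hv0]
      exact f1
    have f8 : (F.card : ℝ) < M := lt_of_le_of_lt f7 hMC
    have f9 : F.card < M := by exact_mod_cast f8
    omega
  obtain ⟨i, hi, j, hj, hij, hχij⟩ := exists_ne_map_eq_of_card_lt_of_maps_to f6 (f := fun j => χ ^ j)
    (fun j hj => by
      have hj' : j < M + 1 := by
        rw [coe_range] at hj
        exact hj
      rw [mem_coe, hF, mem_filter]
      exact ⟨mem_univ _, f5 j (by omega)⟩)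
  rw [mem_range] at hi hj
  have key : ∀ a b : ℕ, a < b → b < M + 1 → χ ^ a = χ ^ b → χ ^ M.factorial = 1 := by
    intro a b hab hb hχab
    have g1 : χ ^ (b - a) = 1 := by
      have g2 : χ ^ b = χ ^ a * χ ^ (b - a) := by
        rw [← pow_add]
        congr 1
        omega
      rw [g2] at hχab
      exact (mul_eq_left.1 hχab.symm)
    obtain ⟨q, hq⟩ := Nat.dvd_factorial (show 0 < b - a by omega) (show b - a ≤ M by omega)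
    rw [hq, pow_mul, g1, one_pow]
  rcases lt_or_gt_of_ne hij with h | h
  · exact key i j h hj hχij
  · exact key j i h hi hχij.symm

end Pool.Agent.Lib.MP_42948a_nt.MV
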