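import Pool.Agent.Lib.MP_42948a_nt.MV.S5

/-!
# From the union to the windows (job R1)

`q_j = ∑_{p ∈ PW d (j s) ((j+1) s)} rw1 p ≤ 2` (`prime_win`) and `≥ 0`; if `q_j = 0` then all terms `rw1 p * g p` of the window vanish, so in both cases `(∑_{window} rw1 p * g p)/q_j ≥ (1/2) ∑_{window} rw1 p * g p` (`g ≥ 0`). The windows `j ∈ [1, N]` cover `PW d c (33/200)`: for a member `p`,
`d^s ≤ d^c < p ≤ d^(33/200) ≤ d^((N+1) s)`; take the largest `j ∈ [1, N]` with `d^(j s) < p` (`Nat.findGreatest`, or induction on `N`); then `p ≤ d^((j+1) s)`. So `∑_{p ∈ PW d c (33/200)} ≤ ∑_j ∑_{window j}` (terms `≥ 0`). `d0 ≥ 1`. `rw1` in `EK/Defs.lean`.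
-/

namespace Pool.Agent.Lib.MP_42948a_nt.MV

open Finset Pool.Agent.Lib.MP_42948a_nt.OA Pool.Agent.Lib.MP_42948a_nt.AC Pool.Agent.Lib.MP_42948a_nt.TQ
  Pool.Agent.Lib.MP_42948a_nt.PS Pool.Agent.Lib.MP_42948a_nt.EK

private theorem R1_mem {d : ℕ} {v u : ℝ} {p : ℕ} : p ∈ PW d v u ↔
    (1 ≤ p ∧ p ≤ ⌊(d : ℝ) ^ u⌋₊) ∧ (d : ℝ) ^ v < p ∧ p.Prime ∧ ¬ p ∣ d := by
  classical
  unfold PW
  rw [mem_filter, mem_Icc]

private theorem R1_cover (c s : ℝ) (hs : 0 < s) (hsc : s ≤ c) (N : ℕ) (hN : 1 ≤ N)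
    (hN1 : 33 / 200 ≤ ((N : ℝ) + 1) * s) (d : ℕ) (hd : 1 ≤ d) (p : ℕ) (hp : p ∈ PW d c (33 / 200)) :
    ∃ j ∈ Icc 1 N, p ∈ PW d ((j : ℝ) * s) (((j : ℝ) + 1) * s) := by
  classical
  rw [R1_mem] at hp
  obtain ⟨⟨hp1, hp2⟩, hp3, hp4⟩ := hp
  have hx1 : (1 : ℝ) ≤ d := by exact_mod_cast hd
  have hp5 : (p : ℝ) ≤ (d : ℝ) ^ (33 / 200 : ℝ) := by
    refine le_trans ?_ (Nat.floor_le (by positivity))
    exact_mod_cast hp2
  have h1 : (d : ℝ) ^ (((1 : ℕ) : ℝ) * s) < p := by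
    refine lt_of_le_of_lt (Real.rpow_le_rpow_of_exponent_le hx1 ?_) hp3
    push_cast
    linarith
  obtain ⟨j, hj⟩ : ∃ j : ℕ, j = Nat.findGreatest (fun j : ℕ => (d : ℝ) ^ ((j : ℝ) * s) < p) N := ⟨_, rfl⟩
  have hj1 : (d : ℝ) ^ ((j : ℝ) * s) < p := by
    rw [hj]
    exact Nat.findGreatest_spec (P := fun j : ℕ => (d : ℝ) ^ ((j : ℝ) * s) < p) hN h1
  have hj2 : 1 ≤ j := by
    rw [hj]
    exact Nat.le_findGreatest hN h1
  have hj3 : j ≤ N := by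
    rw [hj]
    exact Nat.findGreatest_le N
  refine ⟨j, mem_Icc.2 ⟨hj2, hj3⟩, R1_mem.2 ⟨⟨hp1, Nat.le_floor ?_⟩, hj1, hp4⟩⟩
  rcases Nat.lt_or_ge j N with h | h
  · have h2 := Nat.findGreatest_is_greatest (P := fun j : ℕ => (d : ℝ) ^ ((j : ℝ) * s) < p) (n := N)
      (k := j + 1) (by rw [← hj]; exact Nat.lt_succ_self j) h
    have h3 := not_lt.1 h2
    push_cast at h3
    exact h3
  · have h2 : j = N := le_antisymm hj3 h
    rw [h2]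
    exact hp5.trans (Real.rpow_le_rpow_of_exponent_le hx1 hN1)

private theorem R1_sum (A : Finset ℕ) (J : Finset ℕ) (W : ℕ → Finset ℕ) (f : ℕ → ℝ) (hf : ∀ p, 0 ≤ f p)
    (h : ∀ p ∈ A, ∃ j ∈ J, p ∈ W j) : ∑ p ∈ A, f p ≤ ∑ j ∈ J, ∑ p ∈ W j, f p := by
  classical
  have h1 : ∑ p ∈ A, f p ≤ ∑ p ∈ A, ∑ j ∈ J, if p ∈ W j then f p else 0 := by
    refine Finset.sum_le_sum fun p hp => ?_
    obtain ⟨j, hj, hpj⟩ := h p hp
    have h2 := Finset.single_le_sum (f := fun j => if p ∈ W j then f p else 0) (s := J)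
      (fun i _ => by
        by_cases hi : p ∈ W i
        · simp only [if_pos hi]
          exact hf p
        · simp only [if_neg hi]
          exact le_refl _) hj
    simp only [if_pos hpj] at h2
    exact h2
  refine h1.trans ?_
  rw [Finset.sum_comm]
  refine Finset.sum_le_sum fun j _ => ?_
  rw [← Finset.sum_filter]
  refine Finset.sum_le_sum_of_subset_of_nonneg ?_ fun p _ _ => hf p
  intro p hp
  exact (mem_filter.1 hp).2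

private theorem R1_half (W : Finset ℕ) (g : ℕ → ℝ) (hg : ∀ p, 0 ≤ g p) (h : ∑ p ∈ W, rw1 p ≤ 2) :
    1 / 2 * ∑ p ∈ W, rw1 p * g p ≤ (∑ p ∈ W, rw1 p * g p) / ∑ p ∈ W, rw1 p := by
  have h0 : ∀ p ∈ W, 0 ≤ rw1 p := fun p _ => by
    unfold rw1
    positivity
  have hS : 0 ≤ ∑ p ∈ W, rw1 p * g p := Finset.sum_nonneg fun p hp => mul_nonneg (h0 p hp) (hg p)
  rcases (Finset.sum_nonneg h0).eq_or_lt with h1 | h1
  · have h2 := (Finset.sum_eq_zero_iff_of_nonneg h0).1 h1.symm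
    have h3 : ∑ p ∈ W, rw1 p * g p = 0 := Finset.sum_eq_zero fun p hp => by
      rw [h2 p hp, zero_mul]
    rw [h3, mul_zero, zero_div]
  · rw [one_div_mul_eq_div]
    exact div_le_div_of_nonneg_left hS h1 h

theorem windows (c s : ℝ) (hs : 0 < s) (hsc : s ≤ c) (N : ℕ) (hN : 1 ≤ N) (hN1 : 33 / 200 ≤ ((N : ℝ) + 1) * s) : ∃ d0 : ℕ, ∀ d : ℕ, d0 ≤ d →
    ∀ g : ℕ → ℝ, (∀ p, 0 ≤ g p) → 1 / 2 * ∑ p ∈ PW d c (33 / 200), rw1 p * g p ≤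
      ∑ j ∈ Icc 1 N, (∑ p ∈ PW d ((j : ℝ) * s) (((j : ℝ) + 1) * s), rw1 p * g p) / (∑ p ∈ PW d ((j : ℝ) * s) (((j : ℝ) + 1) * s), rw1 p) := by
  obtain ⟨d1, hd1⟩ := prime_win s hs N
  refine ⟨max d1 1, fun d hd g hg => ?_⟩
  have hd2 := hd1 d ((le_max_left _ _).trans hd)
  have h1 := R1_sum (PW d c (33 / 200)) (Icc 1 N) (fun j => PW d ((j : ℝ) * s) (((j : ℝ) + 1) * s))
    (fun p => rw1 p * g p) (fun p => mul_nonneg (by unfold rw1; positivity) (hg p))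
    (R1_cover c s hs hsc N hN hN1 d ((le_max_right _ _).trans hd))
  refine (mul_le_mul_of_nonneg_left h1 (by norm_num)).trans ?_
  rw [Finset.mul_sum]
  exact Finset.sum_le_sum fun j hj => R1_half _ g hg (hd2 j hj)

end Pool.Agent.Lib.MP_42948a_nt.MV
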