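import Pool.Agent.Lib.MP_42948a_nt.MV.Defs

/-!
# Crude bound for the rough numbers up to a power of `z` (job S3)

Let `κ` be fixed and `S = ∑_{z < p ≤ z^κ} 1/p`. `mertA` (`SV/B1.lean`, `u = z ≥ 2`, `v = z^κ`, `κ ≥ 1`): `S ≤ log κ + C/log z ≤ C1` for all `z ≥ 2` (`log z ≥ log 2`; `log v = κ log z`; `Pri z (z^κ)` has the primes `z < p ≤ z^κ`: `mem_Pri`).
`f j := MS d z 0 (z^j)`. Claim `f j ≤ ∑_{i ≤ j} S^i` for `j ≤ κ`, by induction: `f 0 ≤ 1` (`Ioc 0 1 = {1}`). Step: a member `n ≥ 2` of `rg d z 0 (z^(j+1))` has the prime factor `p = n.minFac > z`, and `n = p m` with `m ≤ z^(j+1)/p`, so `m < z^j` hence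
`m ∈ rg d z 0 (z^j)` (`Rough.of_dvd`, `m` coprime to `d`), so `f (j+1) ≤ 1 + ∑_{z<p≤z^κ} (1/p) f j = 1 + S f j` (the map `n ↦ (n.minFac, n/n.minFac)` is injective; `p ≤ n ≤ z^(j+1) ≤ z^κ`). So `f κ ≤ ∑_{i ≤ κ} C1^i` (`C1 ≥ 0`). For `κ = 0`: `f 0 ≤ 1`.
-/

namespace Pool.Agent.Lib.MP_42948a_nt.MV

open Finset Pool.Agent.Lib.MP_42948a_nt.OA Pool.Agent.Lib.MP_42948a_nt.AC Pool.Agent.Lib.MP_42948a_nt.TQ
  Pool.Agent.Lib.MP_42948a_nt.PS Pool.Agent.Lib.MP_42948a_nt.EK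

private theorem S3_mem_Pri {u v p : ℕ} :
    p ∈ SV.Pri (u : ℝ) (v : ℝ) ↔ (u < p ∧ p ≤ v) ∧ p.Prime := by
  unfold SV.Pri
  rw [mem_filter, mem_Ioc, Nat.floor_natCast, Nat.floor_natCast]

private theorem S3_zero (d z : ℕ) : MS d z 0 1 ≤ 1 := by
  unfold MS
  have h : rg d z 0 1 ⊆ {1} := by
    intro n hn
    rw [mem_rg] at hn
    rw [mem_singleton]
    omega
  calc ∑ n ∈ rg d z 0 1, 1 / (n : ℝ) ≤ ∑ n ∈ ({1} : Finset ℕ), 1 / (n : ℝ) :=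
        sum_le_sum_of_subset_of_nonneg h fun n _ _ => by positivity
    _ = 1 := by simp

private theorem S3_step (κ d z j : ℕ) (hz : 2 ≤ z) (hj : j + 1 ≤ κ) :
    MS d z 0 (z ^ (j + 1)) ≤
      1 + (∑ p ∈ SV.Pri (z : ℝ) ((z ^ κ : ℕ) : ℝ), 1 / (p : ℝ)) * MS d z 0 (z ^ j) := by
  classical
  have h1 : MS d z 0 (z ^ (j + 1)) ≤
      1 + ∑ n ∈ (rg d z 0 (z ^ (j + 1))).erase 1, 1 / (n : ℝ) := by
    unfold MS
    by_cases h : 1 ∈ rg d z 0 (z ^ (j + 1))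
    · rw [← Finset.add_sum_erase _ _ h]
      simp
    · rw [Finset.erase_eq_of_notMem h]
      linarith
  have hprop : ∀ n ∈ (rg d z 0 (z ^ (j + 1))).erase 1,
      n.minFac * (n / n.minFac) = n ∧ n.minFac ∈ SV.Pri (z : ℝ) ((z ^ κ : ℕ) : ℝ) ∧
        n / n.minFac ∈ rg d z 0 (z ^ j) := by
    intro n hn
    rw [mem_erase, mem_rg] at hn
    obtain ⟨hn1, ⟨hn0, hnz⟩, hnd, hnr⟩ := hn
    have hp : n.minFac.Prime := Nat.minFac_prime hn1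
    have hpn : n.minFac ∣ n := Nat.minFac_dvd n
    have hmul : n.minFac * (n / n.minFac) = n := Nat.mul_div_cancel' hpn
    have hzp : z < n.minFac := hnr.2 _ hp hpn
    have hm0 : 0 < n / n.minFac := Nat.div_pos (Nat.le_of_dvd hn0 hpn) hp.pos
    refine ⟨hmul, ?_, ?_⟩
    · rw [S3_mem_Pri]
      refine ⟨⟨hzp, ?_⟩, hp⟩
      exact (Nat.le_of_dvd hn0 hpn).trans (hnz.trans (Nat.pow_le_pow_right (by omega) hj))
    · rw [mem_rg]
      have hdvd : n / n.minFac ∣ n := ⟨n.minFac, by rw [mul_comm]; exact hmul.symm⟩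
      refine ⟨⟨hm0, ?_⟩, Nat.Coprime.of_dvd_left hdvd hnd, hnr.of_dvd hdvd⟩
      have h2 : z * (n / n.minFac) ≤ z * z ^ j := by
        calc z * (n / n.minFac) ≤ n.minFac * (n / n.minFac) :=
              Nat.mul_le_mul_right _ hzp.le
          _ = n := hmul
          _ ≤ z ^ (j + 1) := hnz
          _ = z * z ^ j := by rw [pow_succ, mul_comm]
      exact Nat.le_of_mul_le_mul_left h2 (by omega)
  have hinj : Set.InjOn (fun n : ℕ => (n.minFac, n / n.minFac))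
      ((rg d z 0 (z ^ (j + 1))).erase 1 : Finset ℕ) := by
    intro a ha b hb hab
    have ha' := (hprop a ha).1
    have hb' := (hprop b hb).1
    simp only [Prod.mk.injEq] at hab
    calc a = a.minFac * (a / a.minFac) := ha'.symm
      _ = b.minFac * (b / b.minFac) := by rw [hab.2, hab.1]
      _ = b := hb'
  have h2 : ∑ n ∈ (rg d z 0 (z ^ (j + 1))).erase 1, 1 / (n : ℝ) =
      ∑ x ∈ ((rg d z 0 (z ^ (j + 1))).erase 1).image (fun n : ℕ => (n.minFac, n / n.minFac)),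
        1 / (x.1 : ℝ) * (1 / (x.2 : ℝ)) := by
    rw [Finset.sum_image hinj]
    refine Finset.sum_congr rfl fun n hn => ?_
    have h3 := (hprop n hn).1
    have h4 : ((n.minFac * (n / n.minFac) : ℕ) : ℝ) = (n : ℝ) := by rw [h3]
    rw [Nat.cast_mul] at h4
    rw [one_div_mul_one_div, h4]
  have h3 : ((rg d z 0 (z ^ (j + 1))).erase 1).image (fun n : ℕ => (n.minFac, n / n.minFac)) ⊆
      SV.Pri (z : ℝ) ((z ^ κ : ℕ) : ℝ) ×ˢ rg d z 0 (z ^ j) := by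
    intro x hx
    rw [mem_image] at hx
    obtain ⟨n, hn, rfl⟩ := hx
    rw [mem_product]
    exact ⟨(hprop n hn).2.1, (hprop n hn).2.2⟩
  have h4 : ∑ x ∈ ((rg d z 0 (z ^ (j + 1))).erase 1).image (fun n : ℕ => (n.minFac, n / n.minFac)),
        1 / (x.1 : ℝ) * (1 / (x.2 : ℝ)) ≤
      ∑ x ∈ SV.Pri (z : ℝ) ((z ^ κ : ℕ) : ℝ) ×ˢ rg d z 0 (z ^ j), 1 / (x.1 : ℝ) * (1 / (x.2 : ℝ)) :=
    sum_le_sum_of_subset_of_nonneg h3 fun x _ _ => by positivity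
  have h5 : ∑ x ∈ SV.Pri (z : ℝ) ((z ^ κ : ℕ) : ℝ) ×ˢ rg d z 0 (z ^ j),
        1 / (x.1 : ℝ) * (1 / (x.2 : ℝ)) =
      (∑ p ∈ SV.Pri (z : ℝ) ((z ^ κ : ℕ) : ℝ), 1 / (p : ℝ)) * MS d z 0 (z ^ j) := by
    unfold MS
    rw [Finset.sum_mul_sum, Finset.sum_product]
  linarith

private theorem S3_ind (κ d z : ℕ) (hz : 2 ≤ z) (j : ℕ) (hj : j ≤ κ) :
    MS d z 0 (z ^ j) ≤
      ∑ i ∈ range (j + 1), (∑ p ∈ SV.Pri (z : ℝ) ((z ^ κ : ℕ) : ℝ), 1 / (p : ℝ)) ^ i := by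
  induction j with
  | zero =>
    rw [pow_zero]
    refine (S3_zero d z).trans ?_
    simp
  | succ j ih =>
    have h1 := ih (by omega)
    have h2 := S3_step κ d z j hz hj
    have hS : 0 ≤ ∑ p ∈ SV.Pri (z : ℝ) ((z ^ κ : ℕ) : ℝ), 1 / (p : ℝ) :=
      sum_nonneg fun p _ => by positivity
    have h3 := mul_le_mul_of_nonneg_left h1 hS
    rw [Finset.sum_range_succ', pow_zero]
    have h4 : ∑ i ∈ range (j + 1), (∑ p ∈ SV.Pri (z : ℝ) ((z ^ κ : ℕ) : ℝ), 1 / (p : ℝ)) ^ (i + 1) =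
        (∑ p ∈ SV.Pri (z : ℝ) ((z ^ κ : ℕ) : ℝ), 1 / (p : ℝ)) *
          ∑ i ∈ range (j + 1), (∑ p ∈ SV.Pri (z : ℝ) ((z ^ κ : ℕ) : ℝ), 1 / (p : ℝ)) ^ i := by
      rw [Finset.mul_sum]
      refine Finset.sum_congr rfl fun i _ => ?_
      rw [pow_succ, mul_comm]
    rw [h4]
    linarith

theorem rough_crude (κ : ℕ) : ∃ C : ℝ, 0 < C ∧ ∀ z : ℕ, 2 ≤ z → ∀ d : ℕ, MS d z 0 (z ^ κ) ≤ C := by
  rcases Nat.eq_zero_or_pos κ with hκ | hκ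
  · refine ⟨1, one_pos, ?_⟩
    intro z _ d
    rw [hκ, pow_zero]
    exact S3_zero d z
  obtain ⟨C, hC0, hC⟩ := SV.mertA
  have hl2 : (0 : ℝ) < Real.log 2 := Real.log_pos (by norm_num)
  have hlk : 0 ≤ Real.log (κ : ℝ) := Real.log_nonneg (by exact_mod_cast hκ)
  have hC1 : 0 ≤ Real.log (κ : ℝ) + C / Real.log 2 := by positivity
  refine ⟨∑ i ∈ range (κ + 1), (Real.log (κ : ℝ) + C / Real.log 2) ^ i, ?_, ?_⟩
  · refine Finset.sum_pos' (fun i _ => by positivity) ⟨0, by simp, by simp⟩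
  intro z hz d
  have hz2 : (2 : ℝ) ≤ (z : ℝ) := by exact_mod_cast hz
  have hlz : Real.log 2 ≤ Real.log z := Real.log_le_log (by norm_num) hz2
  have hlz0 : 0 < Real.log (z : ℝ) := by linarith
  have hzk : z ≤ z ^ κ := Nat.le_self_pow (by omega) z
  have h1 := hC (z : ℝ) ((z ^ κ : ℕ) : ℝ) hz2 (by exact_mod_cast hzk)
  have h2 : Real.log ((z ^ κ : ℕ) : ℝ) / Real.log z = κ := by
    push_cast
    rw [Real.log_pow]
    field_simp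
  rw [h2] at h1
  have h3 : ∑ p ∈ SV.Pri (z : ℝ) ((z ^ κ : ℕ) : ℝ), 1 / (p : ℝ) ≤
      Real.log (κ : ℝ) + C / Real.log 2 := by
    have h4 := (abs_le.1 h1).2
    have h5 : C / Real.log z ≤ C / Real.log 2 := div_le_div_of_nonneg_left hC0 hl2 hlz
    linarith
  have hS : 0 ≤ ∑ p ∈ SV.Pri (z : ℝ) ((z ^ κ : ℕ) : ℝ), 1 / (p : ℝ) :=
    sum_nonneg fun p _ => by positivity
  refine (S3_ind κ d z hz κ le_rfl).trans ?_
  exact Finset.sum_le_sum fun i _ => pow_le_pow_left₀ hS h3 i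

end Pool.Agent.Lib.MP_42948a_nt.MV
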