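import Pool.Agent.Lib.MP_42948a_nt.MV.Defs
import Pool.Agent.Lib.MP_42948a_nt.PS.B1c

/-!
# Lower bound of the density (job S4)

(1) `∏_{p ∈ PP z} (1 - 1/p) ≥ c1/log z` for `z ≥ 2`: `1 - t ≥ exp(-t - 2 t^2)`... for `0 ≤ t ≤ 1/2` (or `1 - t ≥ exp(-t/(1-t))`, `t/(1-t) ≤ t + 2 t^2`; `-log(1-t) ≤ t/(1-t)`), `∑_{p ≤ z} 1/p ≤ 1/2 + log log z - log log 2 + C/log 2` (`mertA`, `u = 2`) and `∑ 2/p^2 ≤ 4`.
(2) `VP d z = ∏_{p ≤ z, p ∤ d} (1-1/p) · φ(d)/d`, `φ(d)/d = ∏_{p ∣ d} (1-1/p)` (`Nat.totient_eq_mul_prod_factors`), so `VP d z = ∏_{p ≤ z} (1-1/p) · (∏_{p ∣ d, p ≤ z} (1-1/p)) / ∏_{p ∣ d, p ≤ z} (1-1/p) · ∏_{p ∣ d, p > z} (1-1/p) = ∏_{p ≤ z} (1-1/p) · ∏_{p ∣ d, p > z} (1-1/p)`.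
Look at the proof of `VV_upper` (`PS/B2b.lean`), which compares the same products.
(3) `z = ⌊d^c⌋₊`: the primes `p ∣ d`, `p > z` have `p > d^c`, there are at most `1/c` of them (`few_prime_divisors`, `PS/B1c.lean`), so `∏_{p ∣ d, p > z} (1-1/p) ≥ 1 - (1/c)/d^c ≥ 1/2` for large `d` (Bernoulli / `one_add_mul_le_pow`-like: `∏ (1-t_i) ≥ 1 - ∑ t_i`,
`Finset.prod_one_sub...`/`one_sub_sum_le_prod`). (4) `log z ≤ c log d`, `z ≥ 2` for large `d`. `c0 = c1/2`.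
-/

namespace Pool.Agent.Lib.MP_42948a_nt.MV

open Finset Pool.Agent.Lib.MP_42948a_nt.OA Pool.Agent.Lib.MP_42948a_nt.AC Pool.Agent.Lib.MP_42948a_nt.TQ
  Pool.Agent.Lib.MP_42948a_nt.PS Pool.Agent.Lib.MP_42948a_nt.EK

private theorem S4_prod {ι : Type*} (s : Finset ι) (f : ι → ℝ) (h0 : ∀ i ∈ s, 0 ≤ f i) (h1 : ∀ i ∈ s, f i ≤ 1) :
    1 - ∑ i ∈ s, f i ≤ ∏ i ∈ s, (1 - f i) := by
  classical
  induction s using Finset.induction_on with
  | empty => simp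
  | insert a s ha ih =>
    rw [sum_insert ha, prod_insert ha]
    have ih' := ih (fun i hi => h0 i (mem_insert_of_mem hi)) (fun i hi => h1 i (mem_insert_of_mem hi))
    have h2 := h0 a (mem_insert_self a s)
    have h3 := h1 a (mem_insert_self a s)
    have h4 : ∏ i ∈ s, (1 - f i) ≤ 1 := Finset.prod_le_one
      (fun i hi => by have := h1 i (mem_insert_of_mem hi); linarith)
      (fun i hi => by have := h0 i (mem_insert_of_mem hi); linarith)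
    nlinarith [mul_nonneg h2 (sub_nonneg.2 h4)]

private theorem S4_exp {t : ℝ} (h1 : t ≤ 1 / 2) : Real.exp (-(t + 2 * t ^ 2)) ≤ 1 - t := by
  have hp : 0 < 1 - t := by linarith
  rw [← Real.le_log_iff_exp_le hp]
  refine le_trans ?_ (Real.one_sub_inv_le_log_of_pos hp)
  have h2 : (1 - t)⁻¹ ≤ 1 + (t + 2 * t ^ 2) := by
    rw [inv_eq_one_div, div_le_iff₀ hp]
    nlinarith [mul_nonneg (sq_nonneg t) (by linarith : (0 : ℝ) ≤ 1 - 2 * t)]
  linarith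

private theorem S4_sq (z : ℕ) (hz : 2 ≤ z) : ∑ p ∈ PP z, (1 / (p : ℝ)) ^ 2 ≤ 1 := by
  have hsub : PP z ⊆ Ioc 1 z := by
    intro p hp
    unfold PP at hp
    rw [mem_filter, mem_Icc] at hp
    exact mem_Ioc.2 ⟨hp.2.one_lt, hp.1.2⟩
  have h1 := sum_Ioc_inv_sq_le_sub (α := ℝ) (k := 1) (n := z) one_ne_zero (by omega)
  have h2 : ∑ p ∈ PP z, (1 / (p : ℝ)) ^ 2 ≤ ∑ i ∈ Ioc 1 z, ((i : ℝ) ^ 2)⁻¹ := by
    refine (Finset.sum_le_sum_of_subset_of_nonneg hsub fun i _ _ => by positivity).trans (le_of_eq ?_)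
    refine sum_congr rfl fun i _ => ?_
    rw [one_div, inv_pow]
  have h3 : (0 : ℝ) ≤ ((z : ℝ))⁻¹ := by positivity
  rw [Nat.cast_one, inv_one] at h1
  linarith

private theorem S4_mert : ∃ c1 : ℝ, 0 < c1 ∧ ∀ z : ℕ, 2 ≤ z →
    c1 / Real.log z ≤ ∏ p ∈ PP z, (1 - 1 / (p : ℝ)) := by
  obtain ⟨C, hC, hm⟩ := Pool.Agent.Lib.MP_42948a_nt.SV.mertA
  have hl2 : 0 < Real.log 2 := Real.log_pos one_lt_two
  refine ⟨Real.exp (-(5 / 2 + C / Real.log 2)) * Real.log 2, by positivity, fun z hz => ?_⟩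
  have hz2 : (2 : ℝ) ≤ z := by exact_mod_cast hz
  have hlz : 0 < Real.log z := Real.log_pos (by linarith)
  have h1 := hm 2 z le_rfl hz2
  have h3 : PP z = insert 2 (Pool.Agent.Lib.MP_42948a_nt.SV.Pri 2 z) := by
    ext p
    unfold PP Pool.Agent.Lib.MP_42948a_nt.SV.Pri
    rw [mem_insert, mem_filter, mem_filter, mem_Icc, mem_Ioc, Nat.floor_ofNat, Nat.floor_natCast]
    constructor
    · rintro ⟨⟨a, b⟩, hp⟩
      rcases hp.two_le.lt_or_eq with h | h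
      · exact Or.inr ⟨⟨h, b⟩, hp⟩
      · exact Or.inl h.symm
    · rintro (h | ⟨⟨a, b⟩, hp⟩)
      · subst h
        exact ⟨⟨one_le_two, hz⟩, Nat.prime_two⟩
      · exact ⟨⟨by omega, b⟩, hp⟩
  have h2 : ∑ p ∈ PP z, 1 / (p : ℝ) = 1 / 2 + ∑ p ∈ Pool.Agent.Lib.MP_42948a_nt.SV.Pri 2 z, 1 / (p : ℝ) := by
    rw [h3, sum_insert]
    · norm_num
    · unfold Pool.Agent.Lib.MP_42948a_nt.SV.Pri
      rw [mem_filter, mem_Ioc, Nat.floor_ofNat]
      rintro ⟨⟨a, _⟩, _⟩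
      exact lt_irrefl _ a
  have h4 : ∏ p ∈ PP z, Real.exp (-(1 / (p : ℝ) + 2 * (1 / (p : ℝ)) ^ 2)) ≤ ∏ p ∈ PP z, (1 - 1 / (p : ℝ)) := by
    refine prod_le_prod (fun _ _ => (Real.exp_pos _).le) fun p hp => S4_exp ?_
    unfold PP at hp
    rw [mem_filter] at hp
    have h5 : (2 : ℝ) ≤ p := by exact_mod_cast hp.2.two_le
    exact one_div_le_one_div_of_le two_pos h5
  rw [← Real.exp_sum] at h4
  refine le_trans ?_ h4
  have h6 : Real.log 2 / Real.log z = Real.exp (-(Real.log (Real.log z / Real.log 2))) := by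
    rw [Real.exp_neg, Real.exp_log (by positivity), inv_div]
  rw [mul_div_assoc, h6, ← Real.exp_add]
  refine Real.exp_le_exp.2 ?_
  rw [sum_neg_distrib, sum_add_distrib, ← mul_sum, h2]
  have h7 := (abs_le.1 h1).2
  have h8 := S4_sq z hz
  linarith

private theorem S4_tot (d : ℕ) (hd : d ≠ 0) : (d.totient : ℝ) / d = ∏ p ∈ d.primeFactors, (1 - 1 / (p : ℝ)) := by
  have h0 : (d : ℝ) ≠ 0 := by exact_mod_cast hd
  rw [div_eq_iff h0]
  have h1 := Nat.totient_eq_mul_prod_factors d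
  have h2 : ((Nat.totient d : ℚ) : ℝ) = (((d : ℚ) * ∏ p ∈ d.primeFactors, (1 - (p : ℚ)⁻¹) : ℚ) : ℝ) := by
    rw [h1]
  push_cast at h2
  rw [h2, mul_comm]
  refine congrArg (fun x => x * (d : ℝ)) ?_
  exact Finset.prod_congr rfl fun p _ => by rw [one_div]

private theorem S4_VP (d z : ℕ) (hd : d ≠ 0) : VP d z = (∏ p ∈ PP z, (1 - 1 / (p : ℝ))) *
    ∏ p ∈ d.primeFactors.filter (fun p => z < p), (1 - 1 / (p : ℝ)) := by
  classical
  have h2 : VV d z = ∏ p ∈ (PP z).filter (fun p => ¬ p ∣ d), (1 - 1 / (p : ℝ)) := by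
    unfold VV
    rw [Finset.prod_filter]
    refine Finset.prod_congr rfl fun p _ => ?_
    unfold gd
    by_cases h : p ∣ d
    · simp [h]
    · simp [h]
  have h3 : d.primeFactors.filter (fun p => ¬ z < p) = (PP z).filter (fun p => p ∣ d) := by
    ext p
    unfold PP
    rw [mem_filter, mem_filter, mem_filter, mem_Icc, Nat.mem_primeFactors]
    constructor
    · rintro ⟨⟨a, b, _⟩, e⟩
      exact ⟨⟨⟨a.one_lt.le, not_lt.1 e⟩, a⟩, b⟩
    · rintro ⟨⟨⟨_, e⟩, a⟩, b⟩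
      exact ⟨⟨a, b, hd⟩, not_lt.2 e⟩
  have h4 := Finset.prod_filter_mul_prod_filter_not d.primeFactors (fun p => z < p) (fun p : ℕ => 1 - 1 / (p : ℝ))
  have h5 := Finset.prod_filter_mul_prod_filter_not (PP z) (fun p => p ∣ d) (fun p : ℕ => 1 - 1 / (p : ℝ))
  unfold VP
  rw [S4_tot d hd, h2, ← h4, ← h5, h3]
  ring

theorem VP_lower : ∃ c0 : ℝ, 0 < c0 ∧ ∀ c : ℝ, 0 < c → c ≤ 1 → ∃ d0 : ℕ, ∀ d : ℕ, d0 ≤ d → c0 / (c * Real.log d) ≤ VP d (zz c d) := by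
  obtain ⟨c1, hc1, h1⟩ := S4_mert
  refine ⟨c1 / 2, by positivity, fun c hc _ => ?_⟩
  have hT : Filter.Tendsto (fun d : ℕ => (d : ℝ) ^ c) Filter.atTop Filter.atTop :=
    (tendsto_rpow_atTop hc).comp tendsto_natCast_atTop_atTop
  obtain ⟨d1, hd1⟩ := Filter.eventually_atTop.1 (hT.eventually_ge_atTop (max 2 (2 / c)))
  refine ⟨max 2 d1, fun d hd => ?_⟩
  have hd2 : 2 ≤ d := (le_max_left _ _).trans hd
  have hd0 : (0 : ℝ) < d := by exact_mod_cast (by omega : 0 < d)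
  have hX : max 2 (2 / c) ≤ (d : ℝ) ^ c := hd1 d ((le_max_right _ _).trans hd)
  have hX0 : 0 < (d : ℝ) ^ c := by positivity
  have hX2 : (2 : ℝ) ≤ (d : ℝ) ^ c := (le_max_left _ _).trans hX
  have hXc : 2 / c ≤ (d : ℝ) ^ c := (le_max_right _ _).trans hX
  have hz2 : 2 ≤ zz c d := Nat.le_floor (by exact_mod_cast hX2)
  have hz2' : (2 : ℝ) ≤ (zz c d : ℝ) := by exact_mod_cast hz2
  have hlz : 0 < Real.log (zz c d) := Real.log_pos (by linarith)
  have hlog : Real.log (zz c d) ≤ c * Real.log d := by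
    have h2 : (zz c d : ℝ) ≤ (d : ℝ) ^ c := Nat.floor_le hX0.le
    rw [← Real.log_rpow hd0]
    exact Real.log_le_log (by linarith) h2
  have hS : d.primeFactors.filter (fun p => zz c d < p) = d.primeFactors.filter (fun p : ℕ => (d : ℝ) ^ c < p) := by
    refine filter_congr fun p _ => ?_
    exact Nat.floor_lt hX0.le
  have hprod : 1 / 2 ≤ ∏ p ∈ d.primeFactors.filter (fun p : ℕ => (d : ℝ) ^ c < p), (1 - 1 / (p : ℝ)) := by
    refine le_trans ?_ (S4_prod _ (fun p : ℕ => 1 / (p : ℝ)) (fun p _ => by positivity) fun p hp => ?_)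
    · have h5 : ∑ p ∈ d.primeFactors.filter (fun p : ℕ => (d : ℝ) ^ c < p), 1 / (p : ℝ) ≤
          ∑ p ∈ d.primeFactors.filter (fun p : ℕ => (d : ℝ) ^ c < p), 1 / (d : ℝ) ^ c := by
        refine Finset.sum_le_sum fun p hp => ?_
        exact one_div_le_one_div_of_le hX0 (Finset.mem_filter.1 hp).2.le
      rw [Finset.sum_const, nsmul_eq_mul] at h5
      have h6 : ((d.primeFactors.filter (fun p : ℕ => (d : ℝ) ^ c < p)).card : ℝ) * (1 / (d : ℝ) ^ c) ≤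
          1 / c * (1 / (2 / c)) := by
        refine mul_le_mul (few_prime_divisors c hc d hd2) ?_ (by positivity) (by positivity)
        exact one_div_le_one_div_of_le (by positivity) hXc
      have h7 : 1 / c * (1 / (2 / c)) = 1 / 2 := by
        field_simp
      linarith
    · have h5 := (Finset.mem_filter.1 hp).2
      have h6 : (1 : ℝ) ≤ p := by linarith
      rw [div_le_one (by linarith)]
      exact h6
  rw [S4_VP d _ (by omega), hS]
  have h2 : c1 / (c * Real.log d) ≤ ∏ p ∈ PP (zz c d), (1 - 1 / (p : ℝ)) :=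
    (div_le_div_of_nonneg_left hc1.le hlz hlog).trans (h1 _ hz2)
  have h3 : c1 / 2 / (c * Real.log d) = c1 / (c * Real.log d) * (1 / 2) := by ring
  rw [h3]
  refine mul_le_mul h2 hprod (by norm_num) (le_trans ?_ h2)
  have h4 : 0 < c * Real.log d := lt_of_lt_of_le hlz hlog
  positivity

end Pool.Agent.Lib.MP_42948a_nt.MV
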