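import Pool.Agent.Lib.MP_42948a_nt.MV.S2
import Pool.Agent.Lib.MP_42948a_nt.MV.S3
import Pool.Agent.Lib.MP_42948a_nt.MV.S4
import Pool.Agent.Lib.MP_42948a_nt.OA.ZA

/-!
# The masses of the windows (job S6)

Write `z = zz c d`, `A = Aw d`, `B = Bw d`, `V = VP d z`, `X = Xw c d = V log(B/A)`, `D = #d.divisors`, `C1` from `rough_crude (K+2)`, `c0` from `VP_lower`. `c1` is so small that `(K+2) c1 ≤ 1/100` and `c0 · 10^-4/(2 c1) ≥ 100 (C1 + 20)`; `c1 ≤ 1/100000`.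
Facts for large `d`: `z ≥ 2`, `D ≤ z` (`D ≤ d^(c/2)`: `divisor_bound` in `OA/DV.lean`, or `OA/ZA.lean`) and `D ≤ d^(1/100)`, `z^(K+2) ≤ d^(1/100) ≤ A`, `12 z^K D/A ≤ 1/1000`, `log(B/A) ≥ 10^-4/2 log d` (`B/A ≥ (d^(2502/10000) - 1)/d^(2501/10000)`), `A ≤ B`.
So `X ≥ (c0/(c log d)) (10^-4/2) log d = c0 10^-4/(2 c) ≥ 100 (C1 + 20)`; in particular `1 ≤ X`.
(a) `q ≥ 1`. If `B/q ≤ A/q` (natural division) the left side is `0` (`X ≥ 0`). Let `Y = z^(K+2)`, `A' = max (A/q) Y`. `MS d z (A/q) (B/q) ≤ MS d z (A/q) A' + MS d z A' (B/q)` (`MS_split`); the first is `0` if `A/q ≥ Y` and `≤ MS d z 0 Y ≤ C1` otherwise (`MS_mono`). The second is `0` if `B/q ≤ A'`;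
otherwise `MS_le_rho` and `window_up` (`z^K ≤ A'`): `≤ (101/100) V log((B/q)/A') + 12 z^K D/A'`, with `12 z^K D/A' ≤ 12 z^K z/z^(K+2) ≤ 6` and `(B/q)/A' ≤ (B/q)/((A/q : ℕ)) ≤ 2 (B/A)` if `A/q ≥ 1` (`(A/q : ℕ) ≥ A/(2q)` as reals), and if `A/q = 0` then `q > A`, `B/q ≤ B/A`, `A' ≥ 1`. So `log(..) ≤ log(B/A) + 1`,
and `V ≤ 1`: in total `≤ C1 + (101/100) X + 101/100 + 6 ≤ (51/50) X` as `X ≥ 100 (C1 + 20)`.
(b) `window_low` with `A, B`: `MS ≥ (99/100) X - 1/1000 ≥ (49/50) X`. (c) `window_up` with `A, B`.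
-/

namespace Pool.Agent.Lib.MP_42948a_nt.MV

open Finset Pool.Agent.Lib.MP_42948a_nt.OA Pool.Agent.Lib.MP_42948a_nt.AC Pool.Agent.Lib.MP_42948a_nt.TQ
  Pool.Agent.Lib.MP_42948a_nt.PS Pool.Agent.Lib.MP_42948a_nt.EK

private theorem S6_pow (e M : ℝ) (he : 0 < e) : ∃ d0 : ℕ, ∀ d : ℕ, d0 ≤ d → M ≤ (d : ℝ) ^ e := by
  have h1 : Filter.Tendsto (fun d : ℕ => (d : ℝ) ^ e) Filter.atTop Filter.atTop :=
    (tendsto_rpow_atTop he).comp tendsto_natCast_atTop_atTop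
  exact Filter.eventually_atTop.1 (h1.eventually_ge_atTop M)

private theorem S6_MS_zero {d z A B : ℕ} (h : B ≤ A) : MS d z A B = 0 := by
  classical
  unfold MS
  refine sum_eq_zero fun n hn => ?_
  rw [mem_rg] at hn
  omega

private theorem S6_q {K z : ℕ} {u l : Finset ℕ → ℝ} (hF : Fund (1 / 100) K z u l) (hz : 2 ≤ z)
    (d : ℕ) (hd : 0 < d) (A B : ℕ) (hA : 1 ≤ A) (hAB : A ≤ B) (hD : d.divisors.card ≤ z) (C1 : ℝ)
    (hC1 : MS d z 0 (z ^ (K + 2)) ≤ C1) (X : ℝ) (hX : X = VP d z * Real.log ((B : ℝ) / A))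
    (hXC : 100 * (C1 + 20) ≤ X) (q : ℕ) (hq : 1 ≤ q) : MS d z (A / q) (B / q) ≤ 51 / 50 * X := by
  classical
  have hC10 : 0 ≤ C1 := (MS_nonneg _ _ _ _).trans hC1
  have hX0 : 0 ≤ X := by linarith
  rcases le_or_gt (B / q) (A / q) with hab | hab
  · rw [S6_MS_zero hab]
    linarith
  have hz0 : 0 < z := by omega
  obtain ⟨A', hA'⟩ : ∃ A', A' = max (A / q) (z ^ (K + 2)) := ⟨_, rfl⟩
  have hYA : z ^ (K + 2) ≤ A' := by rw [hA']; exact le_max_right _ _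
  have haA : A / q ≤ A' := by rw [hA']; exact le_max_left _ _
  have hA'1 : 1 ≤ A' := (Nat.one_le_pow _ _ hz0).trans hYA
  have h1 : MS d z (A / q) A' ≤ C1 := by
    rcases le_total (z ^ (K + 2)) (A / q) with h | h
    · rw [max_eq_left h] at hA'
      rw [S6_MS_zero hA'.le]
      exact hC10
    · rw [max_eq_right h] at hA'
      rw [hA']
      exact (MS_mono (Nat.zero_le _) le_rfl).trans hC1
  have h2 : MS d z A' (B / q) ≤ 101 / 100 * (X + 1) + 6 := by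
    rcases le_or_gt (B / q) A' with h | h
    · rw [S6_MS_zero h]
      linarith
    · have hzK : z ^ K ≤ A' := (Nat.pow_le_pow_right hz0 (by omega)).trans hYA
      have h3 := (MS_le_rho hF d A' (B / q)).trans (window_up hF hz d hd A' (B / q) hzK h.le)
      have hA'0 : (0 : ℝ) < A' := by exact_mod_cast hA'1
      have hzr : (2 : ℝ) ≤ z := by exact_mod_cast hz
      have hzr0 : (0 : ℝ) < z := by linarith
      have h4 : 12 * (z : ℝ) ^ K * (d.divisors.card : ℝ) / A' ≤ 6 := by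
        rw [div_le_iff₀ hA'0]
        have e1 : (d.divisors.card : ℝ) ≤ z := by exact_mod_cast hD
        have e2 : (z : ℝ) ^ (K + 2) ≤ A' := by exact_mod_cast hYA
        have e3 : (z : ℝ) ^ (K + 2) = (z : ℝ) ^ K * z * z := by ring
        have e4 : (0 : ℝ) < (z : ℝ) ^ K := by positivity
        have e5 : (z : ℝ) ^ K * (d.divisors.card : ℝ) ≤ (z : ℝ) ^ K * z :=
          mul_le_mul_of_nonneg_left e1 e4.le
        have e6 : (z : ℝ) ^ K * z * 2 ≤ (z : ℝ) ^ K * z * z :=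
          mul_le_mul_of_nonneg_left hzr (by positivity)
        rw [e3] at e2
        linarith
      have hA0 : (0 : ℝ) < A := by exact_mod_cast hA
      have hB0 : (0 : ℝ) < B := hA0.trans_le (by exact_mod_cast hAB)
      have hq0 : (0 : ℝ) < q := by exact_mod_cast hq
      have h5 : ((B / q : ℕ) : ℝ) / A' ≤ 2 * ((B : ℝ) / A) := by
        have e1 : ((B / q : ℕ) : ℝ) ≤ (B : ℝ) / q := Nat.cast_div_le
        have e2 : (A : ℝ) ≤ 2 * A' * q := by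
          have e3 : A < (A / q + 1) * q := Nat.lt_mul_of_div_lt (Nat.lt_succ_self _) (by omega)
          have e4 : A / q + 1 ≤ 2 * A' := by omega
          have e5 : (A / q + 1) * q ≤ 2 * A' * q := Nat.mul_le_mul_right _ e4
          exact_mod_cast (e3.le.trans e5)
        rw [div_le_iff₀ hA'0]
        refine e1.trans ?_
        rw [div_le_iff₀ hq0]
        have e6 : 2 * ((B : ℝ) / A) * A' * q = (B : ℝ) / A * (2 * A' * q) := by ring
        rw [e6]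
        have e7 : (B : ℝ) / A * A ≤ (B : ℝ) / A * (2 * A' * q) :=
          mul_le_mul_of_nonneg_left e2 (by positivity)
        rwa [div_mul_cancel₀ _ hA0.ne'] at e7
      have hb0 : (0 : ℝ) < ((B / q : ℕ) : ℝ) := by
        have : 0 < B / q := by omega
        exact_mod_cast this
      have h6 : Real.log (((B / q : ℕ) : ℝ) / A') ≤ Real.log ((B : ℝ) / A) + 1 := by
        have e1 : Real.log (((B / q : ℕ) : ℝ) / A') ≤ Real.log (2 * ((B : ℝ) / A)) :=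
          Real.log_le_log (by positivity) h5
        rw [Real.log_mul (by norm_num) (by positivity)] at e1
        have e2 : Real.log 2 ≤ 1 := by
          have := Real.log_two_lt_d9
          linarith
        linarith
      have h7 : VP d z * Real.log (((B / q : ℕ) : ℝ) / A') ≤ X + 1 := by
        have e1 := mul_le_mul_of_nonneg_left h6 (VV_nonneg' d z)
        have e2 := VP_le_one d z
        rw [mul_add, ← hX, mul_one] at e1
        linarith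
      have h8 : (1 + 1 / 100 : ℝ) * (VP d z * Real.log (((B / q : ℕ) : ℝ) / A')) ≤
          101 / 100 * (X + 1) := by
        have := mul_le_mul_of_nonneg_left h7 (by norm_num : (0 : ℝ) ≤ 101 / 100)
        have e1 : (1 + 1 / 100 : ℝ) = 101 / 100 := by norm_num
        rw [e1]
        exact this
      linarith
  have h3 := MS_split d z (A / q) A' (B / q)
  linarith

private theorem S6_asy (K : ℕ) (c : ℝ) (hc : 0 < c) (hcK : ((K : ℝ) + 2) * c ≤ 1 / 100000) :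
    ∃ d0 : ℕ, ∀ d : ℕ, d0 ≤ d → 0 < d ∧ 0 < Real.log d ∧ 2 ≤ zz c d ∧ d.divisors.card ≤ zz c d ∧
      zz c d ^ K ≤ Aw d ∧ 1 ≤ Aw d ∧ Aw d ≤ Bw d ∧
      12 * (zz c d : ℝ) ^ K * (d.divisors.card : ℝ) / (Aw d : ℝ) ≤ 1 / 1000 ∧
      1 / 20000 * Real.log d ≤ Real.log ((Bw d : ℝ) / (Aw d : ℝ)) := by
  obtain ⟨d1, h1⟩ := S6_pow (c / 2) 2 (by positivity)
  obtain ⟨d2, h2⟩ := S6_pow (1 / 10) 24000 (by norm_num)
  obtain ⟨d3, h3⟩ := S6_pow (1 / 20000) 2 (by norm_num)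
  obtain ⟨d4, h4⟩ := BB_le (c / 2) (by positivity)
  refine ⟨max (max d1 d2) (max d3 (max d4 2)), fun d hd => ?_⟩
  have hd1 := h1 d ((le_max_left _ _).trans ((le_max_left _ _).trans hd))
  have hd2 := h2 d ((le_max_right _ _).trans ((le_max_left _ _).trans hd))
  have hd3 := h3 d ((le_max_left _ _).trans ((le_max_right _ _).trans hd))
  have hd4 := (h4 d ((le_max_left _ _).trans ((le_max_right _ _).trans
    ((le_max_right _ _).trans hd)))).2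
  have hd5 : 2 ≤ d := (le_max_right _ _).trans ((le_max_right _ _).trans
    ((le_max_right _ _).trans hd))
  have hdr : (2 : ℝ) ≤ d := by exact_mod_cast hd5
  have hd0 : (0 : ℝ) < d := by linarith
  have hdr1 : (1 : ℝ) ≤ d := by linarith
  have hmono : ∀ {a b : ℝ}, a ≤ b → (d : ℝ) ^ a ≤ (d : ℝ) ^ b := fun h =>
    Real.rpow_le_rpow_of_exponent_le hdr1 h
  have hcc : (d : ℝ) ^ c = (d : ℝ) ^ (c / 2) * (d : ℝ) ^ (c / 2) := by
    rw [← Real.rpow_add hd0]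
    congr 1
    ring
  have hzle : (zz c d : ℝ) ≤ (d : ℝ) ^ c := Nat.floor_le (by positivity)
  have hzgt : (d : ℝ) ^ c < zz c d + 1 := Nat.lt_floor_add_one _
  have hDz : (d : ℝ) ^ (c / 2) ≤ zz c d := by
    have e1 : 2 * (d : ℝ) ^ (c / 2) ≤ (d : ℝ) ^ (c / 2) * (d : ℝ) ^ (c / 2) :=
      mul_le_mul_of_nonneg_right hd1 (by positivity)
    rw [← hcc] at e1
    linarith
  have hz2 : (2 : ℝ) ≤ zz c d := hd1.trans hDz
  have hAle : (Aw d : ℝ) ≤ (d : ℝ) ^ (2501 / 10000 : ℝ) := Nat.floor_le (by positivity)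
  have hAgt : (d : ℝ) ^ (2501 / 10000 : ℝ) < Aw d + 1 := Nat.lt_floor_add_one _
  have hBgt : (d : ℝ) ^ (2502 / 10000 : ℝ) < Bw d + 1 := Nat.lt_floor_add_one _
  have hK0 : (0 : ℝ) ≤ K := Nat.cast_nonneg K
  have hzK : (zz c d : ℝ) ^ K ≤ (d : ℝ) ^ (c * K) := by
    rw [Real.rpow_mul hd0.le, Real.rpow_natCast]
    exact pow_le_pow_left₀ (Nat.cast_nonneg _) hzle K
  have hcK1 : c * K + c / 2 ≤ 1 / 10 := by nlinarith
  have hcK2 : c * K ≤ 2501 / 10000 := by nlinarith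
  have h15 : (d : ℝ) ^ (1 / 10 : ℝ) * (d : ℝ) ^ (1 / 10 : ℝ) ≤ (d : ℝ) ^ (2501 / 10000 : ℝ) := by
    rw [← Real.rpow_add hd0]
    exact hmono (by norm_num)
  have hA2 : (d : ℝ) ^ (2501 / 10000 : ℝ) / 2 ≤ Aw d := by
    have e1 : (24000 : ℝ) * 24000 ≤ (d : ℝ) ^ (1 / 10 : ℝ) * (d : ℝ) ^ (1 / 10 : ℝ) :=
      mul_le_mul hd2 hd2 (by norm_num) (by positivity)
    linarith
  have hA1 : (1 : ℝ) < Aw d := by
    have e1 : (24000 : ℝ) * 24000 ≤ (d : ℝ) ^ (1 / 10 : ℝ) * (d : ℝ) ^ (1 / 10 : ℝ) :=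
      mul_le_mul hd2 hd2 (by norm_num) (by positivity)
    linarith
  have hAB : (d : ℝ) ^ (2501 / 10000 : ℝ) ≤ (d : ℝ) ^ (2502 / 10000 : ℝ) := hmono (by norm_num)
  refine ⟨by omega, Real.log_pos (by linarith), by exact_mod_cast hz2, ?_, ?_, ?_, ?_, ?_, ?_⟩
  · exact_mod_cast hd4.trans hDz
  · refine Nat.le_floor ?_
    push_cast
    exact hzK.trans (hmono hcK2)
  · exact_mod_cast hA1.le
  · exact Nat.floor_le_floor hAB
  · rw [div_le_iff₀ (by linarith)]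
    have e1 : (zz c d : ℝ) ^ K * (d.divisors.card : ℝ) ≤ (d : ℝ) ^ (c * K) * (d : ℝ) ^ (c / 2) :=
      mul_le_mul hzK hd4 (by positivity) (by positivity)
    rw [← Real.rpow_add hd0] at e1
    have e2 := e1.trans (hmono hcK1)
    have e3 : 24000 * (d : ℝ) ^ (1 / 10 : ℝ) ≤ (d : ℝ) ^ (1 / 10 : ℝ) * (d : ℝ) ^ (1 / 10 : ℝ) :=
      mul_le_mul_of_nonneg_right hd2 (by positivity)
    linarith
  · have e0 : (0 : ℝ) < (d : ℝ) ^ (2501 / 10000 : ℝ) := by positivity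
    have e1 : (d : ℝ) ^ (1 / 20000 : ℝ) ≤ (Bw d : ℝ) / Aw d := by
      rw [le_div_iff₀ (by linarith)]
      have e2 : (d : ℝ) ^ (2502 / 10000 : ℝ) = (d : ℝ) ^ (1 / 20000 : ℝ) *
          ((d : ℝ) ^ (1 / 20000 : ℝ) * (d : ℝ) ^ (2501 / 10000 : ℝ)) := by
        rw [← Real.rpow_add hd0, ← Real.rpow_add hd0]
        congr 1
        norm_num
      have e3 : (d : ℝ) ^ (1 / 20000 : ℝ) * Aw d ≤
          (d : ℝ) ^ (1 / 20000 : ℝ) * (d : ℝ) ^ (2501 / 10000 : ℝ) :=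
        mul_le_mul_of_nonneg_left hAle (by positivity)
      have e4 : 2 * ((d : ℝ) ^ (1 / 20000 : ℝ) * (d : ℝ) ^ (2501 / 10000 : ℝ)) ≤
          (d : ℝ) ^ (2502 / 10000 : ℝ) := by
        rw [e2]
        exact mul_le_mul_of_nonneg_right hd3 (by positivity)
      have e5 : 1 ≤ (d : ℝ) ^ (1 / 20000 : ℝ) * (d : ℝ) ^ (2501 / 10000 : ℝ) := by
        have e6 : (1 : ℝ) ≤ (d : ℝ) ^ (1 / 20000 : ℝ) := by linarith
        have e7 : (1 : ℝ) ≤ (d : ℝ) ^ (2501 / 10000 : ℝ) := by linarith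
        exact one_le_mul_of_one_le_of_one_le e6 e7
      linarith
    have e8 := Real.log_le_log (by positivity) e1
    rwa [Real.log_rpow hd0] at e8

open Classical in
theorem masses (K : ℕ) : ∃ c1 : ℝ, 0 < c1 ∧ (K : ℝ) * c1 ≤ 1 / 100000 ∧ c1 ≤ 1 / 100000 ∧ ∀ c : ℝ, 0 < c → c ≤ c1 → ∃ d0 : ℕ, ∀ d : ℕ, d0 ≤ d →
    ∀ u l : Finset ℕ → ℝ, Fund (1 / 100) K (zz c d) u l →
      (∀ q : ℕ, 1 ≤ q → MS d (zz c d) (Aw d / q) (Bw d / q) ≤ 51 / 50 * Xw c d) ∧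
      49 / 50 * Xw c d ≤ MS d (zz c d) (Aw d) (Bw d) ∧ 99 / 100 * Xw c d - 1 / 1000 ≤ MS d (zz c d) (Aw d) (Bw d) ∧ 1 ≤ Xw c d ∧
      ∑ n ∈ (Ioc (Aw d) (Bw d)).filter (fun n : ℕ => n.Coprime d), rho (zz c d) u n / n ≤ 101 / 100 * Xw c d + 1 / 1000 := by
  obtain ⟨C1, hC1, hrc⟩ := rough_crude (K + 2)
  obtain ⟨c0, hc0, hVl⟩ := VP_lower
  have hK0 : (0 : ℝ) ≤ K := Nat.cast_nonneg K
  obtain ⟨c1, hc1⟩ : ∃ c1 : ℝ, c1 = min (1 / (100000 * ((K : ℝ) + 2))) (c0 / (2000000 * (C1 + 20))) :=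
    ⟨_, rfl⟩
  have hc1a : c1 ≤ 1 / (100000 * ((K : ℝ) + 2)) := by rw [hc1]; exact min_le_left _ _
  have hc1b : c1 ≤ c0 / (2000000 * (C1 + 20)) := by rw [hc1]; exact min_le_right _ _
  have hc10 : 0 < c1 := by
    rw [hc1]
    exact lt_min (by positivity) (by positivity)
  rw [le_div_iff₀ (by positivity)] at hc1a hc1b
  have hKc : ((K : ℝ) + 2) * c1 ≤ 1 / 100000 := by linarith
  have hKc0 : 0 ≤ (K : ℝ) * c1 := by positivity
  refine ⟨c1, hc10, by linarith, by linarith, fun c hc hcc1 => ?_⟩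
  have hcK : ((K : ℝ) + 2) * c ≤ 1 / 100000 :=
    (mul_le_mul_of_nonneg_left hcc1 (by positivity)).trans hKc
  obtain ⟨d1, h1⟩ := S6_asy K c hc hcK
  obtain ⟨d2, h2⟩ := hVl c hc (by linarith)
  refine ⟨max d1 d2, fun d hd u l hF => ?_⟩
  obtain ⟨hd0, hlog, hz2, hDz, hzK, hA1, hAB, hE, hBA⟩ := h1 d ((le_max_left _ _).trans hd)
  have hV := h2 d ((le_max_right _ _).trans hd)
  have hX : 100 * (C1 + 20) ≤ Xw c d := by
    have e1 : c0 / (c * Real.log d) * (1 / 20000 * Real.log d) ≤ Xw c d := by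
      unfold Xw
      exact mul_le_mul hV hBA (by positivity) (VV_nonneg' d _)
    have e2 : c0 / (c * Real.log d) * (1 / 20000 * Real.log d) = c0 / (20000 * c) := by
      field_simp
    rw [e2] at e1
    refine le_trans ?_ e1
    rw [le_div_iff₀ (by positivity)]
    have e3 : c * (2000000 * (C1 + 20)) ≤ c1 * (2000000 * (C1 + 20)) :=
      mul_le_mul_of_nonneg_right hcc1 (by positivity)
    linarith
  have hlow := window_low hF hz2 d hd0 (Aw d) (Bw d) hzK hAB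
  have hup := window_up hF hz2 d hd0 (Aw d) (Bw d) hzK hAB
  have hXe : VP d (zz c d) * Real.log ((Bw d : ℝ) / (Aw d : ℝ)) = Xw c d := rfl
  rw [hXe] at hlow hup
  have h3 : 99 / 100 * Xw c d - 1 / 1000 ≤ MS d (zz c d) (Aw d) (Bw d) := by linarith
  refine ⟨fun q hq => ?_, by linarith, h3, by linarith, by linarith⟩
  exact S6_q hF hz2 d hd0 (Aw d) (Bw d) hA1 hAB hDz C1 (hrc _ hz2 d) (Xw c d) rfl hX q hq


end Pool.Agent.Lib.MP_42948a_nt.MV
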