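import Pool.Agent.Lib.MP_42948a_nt.MV.S5
import Pool.Agent.Lib.MP_42948a_nt.MV.S6
import Pool.Agent.Lib.MP_42948a_nt.MV.O1
import Pool.Agent.Lib.MP_42948a_nt.MV.B1
import Pool.Agent.Lib.MP_42948a_nt.MV.C1
import Pool.Agent.Lib.MP_42948a_nt.MV.C2
import Pool.Agent.Lib.MP_42948a_nt.MV.C3
import Pool.Agent.Lib.MP_42948a_nt.MV.R1
import Pool.Agent.Lib.MP_42948a_nt.TQ.A2

/-!
# A nonprincipal character is not close to `1` on the primes up to `d ^ (33/200)`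
-/

namespace Pool.Agent.Lib.MP_42948a_nt.MV

open Finset Pool.Agent.Lib.MP_42948a_nt.OA Pool.Agent.Lib.MP_42948a_nt.AC Pool.Agent.Lib.MP_42948a_nt.TQ
  Pool.Agent.Lib.MP_42948a_nt.PS Pool.Agent.Lib.MP_42948a_nt.EK

private theorem M_large (X : ℝ) : ∃ d0 : ℕ, ∀ d : ℕ, d0 ≤ d → X ≤ (d : ℝ) := by
  obtain ⟨n, hn⟩ := exists_nat_ge X
  exact ⟨n, fun d hd => hn.trans (by exact_mod_cast hd)⟩

private theorem M_re_le (w : ℂ) (hw : ‖w‖ ≤ 1) : 1 - w.re ≤ ‖1 - w‖ ∧ 1 - w.re ≤ 2 := by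
  constructor
  · have h1 : (1 - w).re ≤ ‖1 - w‖ := Complex.re_le_norm _
    rwa [Complex.sub_re, Complex.one_re] at h1
  · have h1 : -‖w‖ ≤ w.re := (abs_le.mp (Complex.abs_re_le_norm w)).1
    linarith

open Classical in
/-- lower bound of the character sum over the rough numbers -/
theorem lower_sum (d : ℕ) [NeZero d] (χ : DirichletCharacter ℂ d) (z A B : ℕ) (M : ℝ)
    (hM : ∀ q : ℕ, 1 ≤ q → MS d z (A / q) (B / q) ≤ M) (S1 S2 : Finset ℕ) (hS1 : ∀ p ∈ S1, p.Prime) (hS2 : ∀ p ∈ S2, p.Prime)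
    (hS : ∀ n ∈ rg d z A B, ∀ p : ℕ, p.Prime → p ∣ n → p ∈ S1 ∨ p ∈ S2) :
    MS d z A B - 2 * (M * ∑ p ∈ S2, 1 / (p : ℝ)) - 2 * M * ∑ p ∈ S1, 1 / (p : ℝ) * ‖1 - χ (p : ZMod d)‖ ≤
      ‖∑ n ∈ rg d z A B, ((1 / (n : ℝ) : ℝ) : ℂ) * χ (n : ZMod d)‖ := by
  have h1 : (∑ n ∈ rg d z A B, ((1 / (n : ℝ) : ℝ) : ℂ) * χ (n : ZMod d)).re =
      ∑ n ∈ rg d z A B, 1 / (n : ℝ) * (χ (n : ZMod d)).re := by
    rw [Complex.re_sum]
    refine sum_congr rfl fun n _ => ?_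
    rw [Complex.re_ofReal_mul]
  have h2 : ∑ n ∈ rg d z A B, 1 / (n : ℝ) * (χ (n : ZMod d)).re =
      MS d z A B - ∑ n ∈ rg d z A B, 1 / (n : ℝ) * (1 - (χ (n : ZMod d)).re) := by
    unfold MS
    rw [← sum_sub_distrib]
    refine sum_congr rfl fun n _ => ?_
    ring
  have hre := Complex.re_le_norm (∑ n ∈ rg d z A B, ((1 / (n : ℝ) : ℝ) : ℂ) * χ (n : ZMod d))
  rw [h1, h2] at hre
  have h3 := sum_filter_add_sum_filter_not (rg d z A B) (fun n => ∀ p : ℕ, p.Prime → p ∣ n → p ∈ S1)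
    (fun n : ℕ => 1 / (n : ℝ) * (1 - (χ (n : ZMod d)).re))
  have hn1 : ∀ n : ℕ, ‖χ (n : ZMod d)‖ ≤ 1 := fun n => DirichletCharacter.norm_le_one χ _
  have h4 : ∑ n ∈ (rg d z A B).filter (fun n => ∀ p : ℕ, p.Prime → p ∣ n → p ∈ S1),
      1 / (n : ℝ) * (1 - (χ (n : ZMod d)).re) ≤ 2 * M * ∑ p ∈ S1, 1 / (p : ℝ) * ‖1 - χ (p : ZMod d)‖ := by
    refine le_trans (sum_le_sum fun n hn => ?_) (smooth_part d z A B M hM S1 hS1 (fun p => ‖1 - χ (p : ZMod d)‖)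
      (fun p => norm_nonneg _))
    have hn0 : 0 < n := by
      rw [mem_filter, mem_rg] at hn
      exact hn.1.2.2.1
    refine mul_le_mul_of_nonneg_left ?_ (by positivity)
    exact (M_re_le _ (hn1 n)).1.trans (char_diff d χ n hn0)
  have h5 : ∑ n ∈ (rg d z A B).filter (fun n => ¬ ∀ p : ℕ, p.Prime → p ∣ n → p ∈ S1),
      1 / (n : ℝ) * (1 - (χ (n : ZMod d)).re) ≤ 2 * (M * ∑ p ∈ S2, 1 / (p : ℝ)) := by
    have h6 := big_prime d z A B M hM S2 hS2 (fun n => ¬ ∀ p : ℕ, p.Prime → p ∣ n → p ∈ S1) (by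
      intro n hn hP
      push Not at hP
      obtain ⟨p, hp, hpn, hpS⟩ := hP
      exact ⟨p, (hS n hn p hp hpn).resolve_left hpS, hpn⟩)
    have e : ∀ (D1 D2 : DecidablePred (fun n : ℕ => ¬ ∀ p : ℕ, p.Prime → p ∣ n → p ∈ S1)),
        ∑ n ∈ @Finset.filter ℕ _ D1 (rg d z A B), 1 / (n : ℝ) = ∑ n ∈ @Finset.filter ℕ _ D2 (rg d z A B), 1 / (n : ℝ) :=
      fun D1 D2 => by rw [Subsingleton.elim D1 D2]
    calc ∑ n ∈ (rg d z A B).filter (fun n => ¬ ∀ p : ℕ, p.Prime → p ∣ n → p ∈ S1), 1 / (n : ℝ) * (1 - (χ (n : ZMod d)).re)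
        ≤ ∑ n ∈ (rg d z A B).filter (fun n => ¬ ∀ p : ℕ, p.Prime → p ∣ n → p ∈ S1), 1 / (n : ℝ) * 2 :=
          sum_le_sum fun n _ => mul_le_mul_of_nonneg_left (M_re_le _ (hn1 n)).2 (by positivity)
      _ = 2 * ∑ n ∈ (rg d z A B).filter (fun n => ¬ ∀ p : ℕ, p.Prime → p ∣ n → p ∈ S1), 1 / (n : ℝ) := by
          rw [← sum_mul, mul_comm]
      _ ≤ _ := by
          exact mul_le_mul_of_nonneg_left ((e _ _).le.trans h6) (by norm_num)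
  linarith

/-- a nonprincipal character is not close to `1` on the primes up to `d ^ (33/200)` -/
theorem mv_one : ∃ c : ℝ, 0 < c ∧ c ≤ 1 / 100000 ∧ ∃ σ : ℝ, 0 < σ ∧ ∃ d0 : ℕ, ∀ d : ℕ, d0 ≤ d → ∀ [NeZero d],
    ∀ χ : DirichletCharacter ℂ d, χ ≠ 1 → σ ≤ ∑ p ∈ PW d c (33 / 200), rw1 p * ‖1 - χ (p : ZMod d)‖ ^ 2 := by
  classical
  obtain ⟨K, hK⟩ := fund (1 / 100) (by norm_num) (by norm_num)
  obtain ⟨c, hc, hKc, hc1, hmass⟩ := masses K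
  obtain ⟨d1, hd1⟩ := hmass c hc le_rfl
  obtain ⟨m, hm, σ1, hσ1, d2, hd2⟩ := bounded_order c hc (by linarith)
  obtain ⟨d3, hd3⟩ := burgess_rho m hm K c hc hKc
  obtain ⟨d4, hd4⟩ := prime_top
  obtain ⟨S0, hS0, d5, hd5⟩ := prime_mid c hc (by linarith)
  obtain ⟨d6, hd6⟩ : ∃ d0 : ℕ, ∀ d : ℕ, d0 ≤ d → (2 : ℝ) ≤ (d : ℝ) ^ c := by
    have hev : ∀ᶠ d : ℕ in Filter.atTop, (2 : ℝ) ≤ (d : ℝ) ^ c :=
      ((tendsto_rpow_atTop hc).comp tendsto_natCast_atTop_atTop).eventually_ge_atTop _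
    exact Filter.eventually_atTop.1 hev
  refine ⟨c, hc, hc1, min σ1 (1 / (400 * S0)), lt_min hσ1 (by positivity), d1 + d2 + d3 + d4 + d5 + d6 + 1, ?_⟩
  intro d hd _ χ hχ
  by_contra hcon
  rw [not_le] at hcon
  have hord := hd2 d (by omega) χ (hcon.trans_le (min_le_left _ _))
  have hz2 : 2 ≤ zz c d := by
    unfold zz
    exact Nat.le_floor (by exact_mod_cast hd6 d (by omega))
  obtain ⟨u, l, hF⟩ := hK (zz c d) hz2
  obtain ⟨hM, -, hlow, hX1, hup⟩ := hd1 d (by omega) u l hF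
  have hB := hd3 d (by omega) u l hF χ hχ hord
  have hU := upper_sum hF d χ (Aw d) (Bw d)
  have hL := lower_sum d χ (zz c d) (Aw d) (Bw d) (51 / 50 * Xw c d) hM (PW d c (33 / 200)) (PW d (33 / 200) (2502 / 10000))
    (by
      intro p hp
      unfold PW at hp
      exact (mem_filter.mp hp).2.2.1)
    (by
      intro p hp
      unfold PW at hp
      exact (mem_filter.mp hp).2.2.1)
    (by
      intro n hn p hp hpn
      rw [mem_rg] at hn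
      have hpd : ¬ p ∣ d := by
        intro h
        have h1 : p ∣ Nat.gcd n d := Nat.dvd_gcd hpn h
        rw [hn.2.1] at h1
        exact absurd (Nat.dvd_one.mp h1) hp.one_lt.ne'
      have hzp : zz c d < p := hn.2.2.2 p hp hpn
      have hpB : p ≤ Bw d := (Nat.le_of_dvd hn.2.2.1 hpn).trans hn.1.2
      have hzp' : (d : ℝ) ^ c < p := by
        unfold zz at hzp
        exact (Nat.floor_lt (Real.rpow_nonneg (Nat.cast_nonneg d) _)).mp hzp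
      unfold PW
      rw [mem_filter, mem_filter, mem_Icc, mem_Icc]
      rcases le_or_gt (p : ℝ) ((d : ℝ) ^ (33 / 200 : ℝ)) with h | h
      · exact Or.inl ⟨⟨hp.one_le, Nat.le_floor h⟩, hzp', hp, hpd⟩
      · refine Or.inr ⟨⟨hp.one_le, ?_⟩, h, hp, hpd⟩
        unfold Bw at hpB
        exact hpB)
  have htop := hd4 d (by omega)
  have hmid := hd5 d (by omega)
  set X := Xw c d with hXdef
  set T := ∑ p ∈ PW d c (33 / 200), 1 / (p : ℝ) * ‖1 - χ (p : ZMod d)‖ with hTdef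
  have hT0 : 0 ≤ T := sum_nonneg fun p _ => by positivity
  have hX0 : 0 ≤ X := by linarith
  have hbig : 1 / 20 ≤ T := by
    have h1 : 2 * (51 / 50 * X * ∑ p ∈ PW d (33 / 200) (2502 / 10000), 1 / (p : ℝ)) ≤ 2 * (51 / 50 * X * (417 / 1000)) :=
      mul_le_mul_of_nonneg_left (mul_le_mul_of_nonneg_left htop (by positivity)) (by norm_num)
    by_contra hlt
    rw [not_le] at hlt
    have h2 : 2 * (51 / 50 * X) * T ≤ 2 * (51 / 50 * X) * (1 / 20) :=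
      mul_le_mul_of_nonneg_left hlt.le (by positivity)
    linarith
  have hCS : T ^ 2 ≤ (∑ p ∈ PW d c (33 / 200), 1 / (p : ℝ)) * ∑ p ∈ PW d c (33 / 200), rw1 p * ‖1 - χ (p : ZMod d)‖ ^ 2 := by
    rw [hTdef]
    have h1 := sum_mul_sq_le_sq_mul_sq (PW d c (33 / 200)) (fun p : ℕ => √(1 / (p : ℝ)))
      (fun p : ℕ => √(1 / (p : ℝ)) * ‖1 - χ (p : ZMod d)‖)
    have e1 : ∑ p ∈ PW d c (33 / 200), 1 / (p : ℝ) * ‖1 - χ (p : ZMod d)‖ =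
        ∑ p ∈ PW d c (33 / 200), √(1 / (p : ℝ)) * (√(1 / (p : ℝ)) * ‖1 - χ (p : ZMod d)‖) := by
      refine sum_congr rfl fun p _ => ?_
      rw [← mul_assoc, Real.mul_self_sqrt (by positivity)]
    have e2 : ∑ p ∈ PW d c (33 / 200), √(1 / (p : ℝ)) ^ 2 = ∑ p ∈ PW d c (33 / 200), 1 / (p : ℝ) := by
      refine sum_congr rfl fun p _ => ?_
      rw [Real.sq_sqrt (by positivity)]
    have e3 : ∑ p ∈ PW d c (33 / 200), (√(1 / (p : ℝ)) * ‖1 - χ (p : ZMod d)‖) ^ 2 =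
        ∑ p ∈ PW d c (33 / 200), rw1 p * ‖1 - χ (p : ZMod d)‖ ^ 2 := by
      refine sum_congr rfl fun p _ => ?_
      rw [mul_pow, Real.sq_sqrt (by positivity)]
      rfl
    rw [e1]
    rw [e2, e3] at h1
    exact h1
  have hσ : ∑ p ∈ PW d c (33 / 200), rw1 p * ‖1 - χ (p : ZMod d)‖ ^ 2 < 1 / (400 * S0) := hcon.trans_le (min_le_right _ _)
  have h1 : (1 / 20 : ℝ) ^ 2 ≤ T ^ 2 := pow_le_pow_left₀ (by norm_num) hbig 2
  have h2 : (∑ p ∈ PW d c (33 / 200), 1 / (p : ℝ)) * ∑ p ∈ PW d c (33 / 200), rw1 p * ‖1 - χ (p : ZMod d)‖ ^ 2 ≤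
      S0 * ∑ p ∈ PW d c (33 / 200), rw1 p * ‖1 - χ (p : ZMod d)‖ ^ 2 :=
    mul_le_mul_of_nonneg_right hmid (sum_nonneg fun p _ => by unfold rw1; positivity)
  have h3 : S0 * ∑ p ∈ PW d c (33 / 200), rw1 p * ‖1 - χ (p : ZMod d)‖ ^ 2 < S0 * (1 / (400 * S0)) :=
    mul_lt_mul_of_pos_left hσ (by linarith)
  have h4 : S0 * (1 / (400 * S0)) = 1 / 400 := by
    field_simp
  rw [h4] at h3
  have h5 : (1 / 20 : ℝ) ^ 2 = 1 / 400 := by norm_num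
  linarith

/-- the form with real parts -/
theorem mv_re : ∃ c : ℝ, 0 < c ∧ c ≤ 1 / 100000 ∧ ∃ σ : ℝ, 0 < σ ∧ ∃ d0 : ℕ, ∀ d : ℕ, d0 ≤ d → ∀ [NeZero d],
    ∀ χ : DirichletCharacter ℂ d, χ ≠ 1 → σ ≤ ∑ p ∈ PW d c (33 / 200), rw1 p * (1 - (χ (p : ZMod d)).re) := by
  obtain ⟨c, hc, hc1, σ, hσ, d1, hd1⟩ := mv_one
  refine ⟨c, hc, hc1, σ / 2, by positivity, d1, fun d hd _ χ hχ => ?_⟩
  have h1 := hd1 d hd χ hχ
  have h2 : ∑ p ∈ PW d c (33 / 200), rw1 p * ‖1 - χ (p : ZMod d)‖ ^ 2 =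
      2 * ∑ p ∈ PW d c (33 / 200), rw1 p * (1 - (χ (p : ZMod d)).re) := by
    rw [mul_sum]
    refine sum_congr rfl fun p hp => ?_
    have hpd : p.Coprime d := by
      unfold PW at hp
      exact (Nat.Prime.coprime_iff_not_dvd (mem_filter.mp hp).2.2.1).mpr (mem_filter.mp hp).2.2.2
    have h3 : ‖χ (p : ZMod d)‖ = 1 := by
      rw [← ucl_val hpd]
      exact norm_ev χ _
    have h4 : ‖1 - χ (p : ZMod d)‖ ^ 2 = 2 * (1 - (χ (p : ZMod d)).re) := by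
      have h5 : ‖χ (p : ZMod d)‖ ^ 2 = 1 := by rw [h3, one_pow]
      rw [← Complex.normSq_eq_norm_sq, Complex.normSq_apply] at h5 ⊢
      rw [Complex.sub_re, Complex.sub_im, Complex.one_re, Complex.one_im]
      linarith
    rw [h4]
    ring
  linarith

/-- the form with the windows of length `s` -/
theorem mv : ∃ s0 : ℝ, 0 < s0 ∧ s0 ≤ 1 / 100000 ∧ ∀ s : ℝ, 0 < s → s ≤ s0 → ∀ N : ℕ, 33 / 200 ≤ ((N : ℝ) + 1) * s →
    ∃ σ : ℝ, 0 < σ ∧ ∃ d0 : ℕ, ∀ d : ℕ, d0 ≤ d → ∀ [NeZero d], ∀ χ : DirichletCharacter ℂ d, χ ≠ 1 →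
      σ ≤ ∑ j ∈ Icc 1 N, (∑ p ∈ PW d ((j : ℝ) * s) (((j : ℝ) + 1) * s), rw1 p * ‖1 - χ (p : ZMod d)‖ ^ 2) /
        (∑ p ∈ PW d ((j : ℝ) * s) (((j : ℝ) + 1) * s), rw1 p) := by
  obtain ⟨c, hc, hc1, σ, hσ, d1, hd1⟩ := mv_one
  refine ⟨c, hc, hc1, fun s hs hsc N hN1 => ⟨1 / 2 * σ, by positivity, ?_⟩⟩
  have hN : 1 ≤ N := by
    by_contra h
    have h0 : N = 0 := by omega
    rw [h0] at hN1
    push_cast at hN1
    linarith
  obtain ⟨d2, hd2⟩ := windows c s hs hsc N hN hN1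
  refine ⟨d1 + d2, fun d hd _ χ hχ => ?_⟩
  refine le_trans ?_ (hd2 d (by omega) (fun p => ‖1 - χ (p : ZMod d)‖ ^ 2) fun p => by positivity)
  exact mul_le_mul_of_nonneg_left (hd1 d (by omega) χ hχ) (by norm_num)

end Pool.Agent.Lib.MP_42948a_nt.MV
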