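import Pool.Agent.Lib.MP_42948a_nt.TQ.A2

/-!
# The sieve weights with an explicit relation between precision and level

`K ≤ C (1 + log (1/τ))`. From `x^k/k! ≤ e^x` at `x = e L`: `L^k/k! ≤ e^(eL) e^(-k)`, so `b0 = ⌈(e L + log(1/δ))/2⌉₊` is enough in `exp_tail`.
-/

namespace Pool.Agent.Lib.MP_42948a_nt.MV

open Finset Pool.Agent.Lib.MP_42948a_nt.OA Pool.Agent.Lib.MP_42948a_nt.AC Pool.Agent.Lib.MP_42948a_nt.TQ

theorem exp_tail_quant (L δ : ℝ) (hL : 0 ≤ L) (hδ : 0 < δ) (hδ1 : δ ≤ 1) :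
    ∃ b0 : ℕ, (b0 : ℝ) ≤ (Real.exp 1 * L + Real.log (1 / δ)) / 2 + 1 ∧ ∀ J : ℕ,
      ∑ l ∈ range J, L ^ (2 * (b0 + l) + 1) / ((2 * (b0 + l) + 1).factorial : ℝ) ≤ δ := by
  have hlog : 0 ≤ Real.log (1 / δ) := Real.log_nonneg (by rw [le_div_iff₀ hδ]; linarith)
  set y : ℝ := (Real.exp 1 * L + Real.log (1 / δ)) / 2 with hy
  have hy0 : 0 ≤ y := by
    rw [hy]
    have := Real.exp_pos 1
    positivity
  refine ⟨⌈y⌉₊, (Nat.ceil_lt_add_one hy0).le, fun J => ?_⟩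
  have hterm : ∀ k : ℕ, L ^ k / (k.factorial : ℝ) ≤ Real.exp (Real.exp 1 * L) * Real.exp (-(k : ℝ)) := by
    intro k
    have h1 := Real.pow_div_factorial_le_exp (Real.exp 1 * L) (mul_nonneg (Real.exp_pos 1).le hL) k
    have h2 : (Real.exp 1 * L) ^ k / (k.factorial : ℝ) = Real.exp (k : ℝ) * (L ^ k / (k.factorial : ℝ)) := by
      rw [mul_pow, ← Real.exp_nat_mul, mul_one, mul_div_assoc]
    rw [h2] at h1
    have h3 : Real.exp (k : ℝ) * Real.exp (-(k : ℝ)) = 1 := by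
      rw [← Real.exp_add, add_neg_cancel, Real.exp_zero]
    calc L ^ k / (k.factorial : ℝ) = (Real.exp (k : ℝ) * (L ^ k / (k.factorial : ℝ))) * Real.exp (-(k : ℝ)) := by
          linear_combination (-(L ^ k / (k.factorial : ℝ))) * h3
      _ ≤ Real.exp (Real.exp 1 * L) * Real.exp (-(k : ℝ)) := mul_le_mul_of_nonneg_right h1 (Real.exp_pos _).le
  have hgeom : ∀ J : ℕ, ∑ l ∈ range J, Real.exp (-((2 * l + 1 : ℕ) : ℝ)) ≤ 1 := by
    intro J
    have hr0 : 0 ≤ Real.exp (-2 : ℝ) := (Real.exp_pos _).le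
    have he2 : Real.exp (-2 : ℝ) ≤ 1 / 2 := by
      rw [Real.exp_neg, ← one_div]
      apply one_div_le_one_div_of_le (by norm_num)
      have := Real.add_one_le_exp (2 : ℝ)
      linarith
    have he1 : Real.exp (-1 : ℝ) ≤ 1 / 2 := by
      rw [Real.exp_neg, ← one_div]
      apply one_div_le_one_div_of_le (by norm_num)
      have := Real.add_one_le_exp (1 : ℝ)
      linarith
    have hl : ∀ l : ℕ, Real.exp (-((2 * l + 1 : ℕ) : ℝ)) ≤ 1 / 2 * (1 / 2 : ℝ) ^ l := by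
      intro l
      have h1 : Real.exp (-((2 * l + 1 : ℕ) : ℝ)) = Real.exp (-1 : ℝ) * (Real.exp (-2 : ℝ)) ^ l := by
        rw [← Real.exp_nat_mul, ← Real.exp_add]
        congr 1
        push_cast
        ring
      rw [h1]
      exact mul_le_mul he1 (pow_le_pow_left₀ hr0 he2 l) (pow_nonneg hr0 l) (by norm_num)
    calc ∑ l ∈ range J, Real.exp (-((2 * l + 1 : ℕ) : ℝ)) ≤ ∑ l ∈ range J, 1 / 2 * (1 / 2 : ℝ) ^ l :=
          sum_le_sum fun l _ => hl l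
      _ = 1 - (1 / 2 : ℝ) ^ J := by
          rw [← mul_sum, geom_sum_eq (by norm_num)]
          ring
      _ ≤ 1 := by
          have : (0 : ℝ) ≤ (1 / 2 : ℝ) ^ J := by positivity
          linarith
  have hb : Real.exp (Real.exp 1 * L) * Real.exp (-(2 * (⌈y⌉₊ : ℝ))) ≤ δ := by
    rw [← Real.exp_add]
    have h1 : y ≤ (⌈y⌉₊ : ℝ) := Nat.le_ceil y
    have h2 : Real.exp 1 * L + -(2 * (⌈y⌉₊ : ℝ)) ≤ Real.log δ := by
      have h3 : Real.log (1 / δ) = -Real.log δ := by rw [one_div, Real.log_inv]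
      rw [h3] at hy
      linarith
    calc Real.exp (Real.exp 1 * L + -(2 * (⌈y⌉₊ : ℝ))) ≤ Real.exp (Real.log δ) := Real.exp_le_exp.mpr h2
      _ = δ := Real.exp_log hδ
  calc ∑ l ∈ range J, L ^ (2 * (⌈y⌉₊ + l) + 1) / ((2 * (⌈y⌉₊ + l) + 1).factorial : ℝ)
      ≤ ∑ l ∈ range J, (Real.exp (Real.exp 1 * L) * Real.exp (-(2 * (⌈y⌉₊ : ℝ)))) * Real.exp (-((2 * l + 1 : ℕ) : ℝ)) := by
        refine sum_le_sum fun l _ => (hterm _).trans (le_of_eq ?_)
        have h9 : Real.exp (-(2 * (⌈y⌉₊ : ℝ))) * Real.exp (-((2 * l + 1 : ℕ) : ℝ)) =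
            Real.exp (-((2 * (⌈y⌉₊ + l) + 1 : ℕ) : ℝ)) := by
          rw [← Real.exp_add]
          congr 1
          push_cast
          ring
        rw [mul_assoc, h9]
    _ = (Real.exp (Real.exp 1 * L) * Real.exp (-(2 * (⌈y⌉₊ : ℝ)))) * ∑ l ∈ range J, Real.exp (-((2 * l + 1 : ℕ) : ℝ)) := by
        rw [mul_sum]
    _ ≤ δ * 1 := mul_le_mul hb (hgeom J) (sum_nonneg fun l _ => (Real.exp_pos _).le) hδ.le
    _ = δ := mul_one δ

/-- precision of the two functionals with an explicit number of steps -/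
theorem prec_quant : ∃ C : ℝ, 0 < C ∧ ∀ τ : ℝ, 0 < τ → τ ≤ 1 → ∃ b0 : ℕ, (b0 : ℝ) ≤ C + Real.log (1 / τ) ∧ ∀ (z : ℕ) (g : ℕ → ℝ), Adm z g →
    (1 - τ) * ∏ p ∈ PP z, (1 - g p) ≤ FF z b0 g ∧ UU z b0 g ≤ (1 + τ) * ∏ p ∈ PP z, (1 - g p) := by
  obtain ⟨L0, hL0, hrec⟩ := block_recip
  refine ⟨(Real.exp 1 * (2 * L0) + (2 * (2 * L0) + 1)) / 2 + 2, by positivity, fun τ hτ hτ1 => ?_⟩
  obtain ⟨b0, hb0l, hb0⟩ := exp_tail_quant (2 * L0) (Real.exp (-(2 * (2 * L0))) * (τ / 2)) (by linarith)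
    (by have := Real.exp_pos (-(2 * (2 * L0))); positivity) (by
      have h1 : Real.exp (-(2 * (2 * L0))) ≤ 1 := Real.exp_le_one_iff.mpr (by linarith)
      have h2 : τ / 2 ≤ 1 := by linarith
      calc Real.exp (-(2 * (2 * L0))) * (τ / 2) ≤ 1 * 1 := mul_le_mul h1 h2 (by positivity) zero_le_one
        _ = 1 := one_mul 1)
  have hbound : (b0 : ℝ) ≤ (Real.exp 1 * (2 * L0) + (2 * (2 * L0) + 1)) / 2 + 2 + Real.log (1 / τ) := by
    have h1 : Real.log (1 / (Real.exp (-(2 * (2 * L0))) * (τ / 2))) = 2 * (2 * L0) + (Real.log 2 + Real.log (1 / τ)) := by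
      rw [one_div, Real.log_inv, Real.log_mul (Real.exp_pos _).ne' (by positivity), Real.log_exp,
        Real.log_div hτ.ne' (by norm_num), one_div, Real.log_inv]
      ring
    rw [h1] at hb0l
    have h2 : Real.log 2 ≤ 1 := by
      have := Real.log_two_lt_d9
      linarith
    have h3 : 0 ≤ Real.log (1 / τ) := Real.log_nonneg (by rw [le_div_iff₀ hτ]; linarith)
    linarith
  refine ⟨b0, hbound, ?_⟩
  set L : ℝ := 2 * L0 with hL
  have hLpos : 0 < L := by rw [hL]; linarith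
  intro z g hg
  have hsub : ∀ l, ∀ p ∈ Pj z l, p ∈ PP z := fun l p hp => (mem_filter.mp hp).1
  have hg0 : ∀ l, ∀ p ∈ Pj z l, 0 ≤ g p := fun l p hp => (hg p (hsub l p hp)).1
  have hg34 : ∀ l, ∀ p ∈ Pj z l, g p ≤ 3 / 4 := fun l p hp => (hg p (hsub l p hp)).2.1
  have hg1 : ∀ l, ∀ p ∈ Pj z l, g p ≤ 1 := fun l p hp => (hg34 l p hp).trans (by norm_num)
  have hS0 : ∀ l, 0 ≤ ∑ p ∈ Pj z l, g p := fun l => sum_nonneg (hg0 l)
  have hS : ∀ l, ∑ p ∈ Pj z l, g p ≤ L := by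
    intro l
    calc ∑ p ∈ Pj z l, g p ≤ ∑ p ∈ Pj z l, 2 * ((1 : ℝ) / p) := by
          refine sum_le_sum fun p hp => ?_
          refine (hg p (hsub l p hp)).2.2.trans (le_of_eq ?_)
          ring
      _ = 2 * ∑ p ∈ Pj z l, (1 : ℝ) / p := by rw [mul_sum]
      _ ≤ L := by
          rw [hL]
          exact mul_le_mul_of_nonneg_left (hrec z l) (by norm_num)
  have hV : ∀ l, Real.exp (-(2 * L)) ≤ ∏ p ∈ Pj z l, (1 - g p) := by
    intro l
    refine le_trans ?_ (exp_le_prod (Pj z l) g (hg0 l) (hg34 l))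
    apply Real.exp_le_exp.mpr
    linarith [hS l]
  have hU : ∀ l, ∏ p ∈ Pj z l, (1 - g p) ≤ bon (Pj z l) g (2 * (b0 + l)) :=
    fun l => bon_ge (Pj z l) g (hg0 l) (hg1 l) (b0 + l)
  have hU0 : ∀ l, 0 < bon (Pj z l) g (2 * (b0 + l)) :=
    fun l => lt_of_lt_of_le (Real.exp_pos _) ((hV l).trans (hU l))
  have hE : ∀ l, esy (Pj z l) g (2 * (b0 + l) + 1) ≤
      L ^ (2 * (b0 + l) + 1) / ((2 * (b0 + l) + 1).factorial : ℝ) := by
    intro l
    refine (esy_le (Pj z l) g (hg0 l) _).trans ?_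
    have h1 : (∑ p ∈ Pj z l, g p) ^ (2 * (b0 + l) + 1) ≤ L ^ (2 * (b0 + l) + 1) :=
      pow_le_pow_left₀ (hS0 l) (hS l) _
    have h2 : (0 : ℝ) < ((2 * (b0 + l) + 1).factorial : ℝ) := by exact_mod_cast Nat.factorial_pos _
    exact div_le_div_of_nonneg_right h1 h2.le
  set PU : ℝ := ∏ j ∈ range z, bon (Pj z j) g (2 * (b0 + j)) with hPU
  have hPU0 : 0 ≤ PU := prod_nonneg fun j _ => (hU0 j).le
  have hterm : ∀ l ∈ range z, esy (Pj z l) g (2 * (b0 + l) + 1) *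
      ∏ j ∈ (range z).erase l, bon (Pj z j) g (2 * (b0 + j)) ≤
      L ^ (2 * (b0 + l) + 1) / ((2 * (b0 + l) + 1).factorial : ℝ) * (Real.exp (2 * L) * PU) := by
    intro l hl
    have hX0 : 0 ≤ ∏ j ∈ (range z).erase l, bon (Pj z j) g (2 * (b0 + j)) :=
      prod_nonneg fun j _ => (hU0 j).le
    have hX : ∏ j ∈ (range z).erase l, bon (Pj z j) g (2 * (b0 + j)) ≤ Real.exp (2 * L) * PU := by
      rw [hPU, ← mul_prod_erase (range z) (fun j => bon (Pj z j) g (2 * (b0 + j))) hl, ← mul_assoc]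
      have h1 : 1 ≤ Real.exp (2 * L) * bon (Pj z l) g (2 * (b0 + l)) := by
        calc (1 : ℝ) = Real.exp (2 * L) * Real.exp (-(2 * L)) := by
              rw [← Real.exp_add, add_neg_cancel, Real.exp_zero]
          _ ≤ Real.exp (2 * L) * bon (Pj z l) g (2 * (b0 + l)) :=
              mul_le_mul_of_nonneg_left ((hV l).trans (hU l)) (Real.exp_pos _).le
      exact le_mul_of_one_le_left hX0 h1
    have h2 : (0 : ℝ) ≤ L ^ (2 * (b0 + l) + 1) / ((2 * (b0 + l) + 1).factorial : ℝ) := by positivity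
    exact (mul_le_mul_of_nonneg_right (hE l) hX0).trans (mul_le_mul_of_nonneg_left hX h2)
  have hsum : ∑ l ∈ range z, esy (Pj z l) g (2 * (b0 + l) + 1) *
      ∏ j ∈ (range z).erase l, bon (Pj z j) g (2 * (b0 + j)) ≤ PU * (τ / 2) := by
    refine (sum_le_sum hterm).trans ?_
    rw [← sum_mul]
    have h1 : (0 : ℝ) ≤ Real.exp (2 * L) * PU := mul_nonneg (Real.exp_pos _).le hPU0
    refine (mul_le_mul_of_nonneg_right (hb0 z) h1).trans (le_of_eq ?_)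
    have h2 : Real.exp (-(2 * L)) * Real.exp (2 * L) = 1 := by
      rw [← Real.exp_add, neg_add_cancel, Real.exp_zero]
    linear_combination (PU * (τ / 2)) * h2
  have hPV : ∏ p ∈ PP z, (1 - g p) ≤ PU := by
    rw [prod_PP, hPU]
    exact prod_le_prod (fun j _ => (Real.exp_pos _).le.trans (hV j)) fun j _ => hU j
  have hFF : (1 - τ / 2) * PU ≤ FF z b0 g := by
    unfold FF
    rw [← hPU]
    linarith
  have hUU : UU z b0 g = PU := rfl
  have hFle : FF z b0 g ≤ ∏ p ∈ PP z, (1 - g p) :=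
    FF_le z b0 g (fun p hp => (hg p hp).1) (fun p hp => (hg p hp).2.1.trans (by norm_num))
  have hV0 : 0 ≤ ∏ p ∈ PP z, (1 - g p) :=
    prod_nonneg fun p hp => sub_nonneg.mpr ((hg p hp).2.1.trans (by norm_num))
  rw [hUU]
  constructor
  · have h1 : (1 - τ) * ∏ p ∈ PP z, (1 - g p) ≤ (1 - τ / 2) * ∏ p ∈ PP z, (1 - g p) :=
      mul_le_mul_of_nonneg_right (by linarith) hV0
    have h2 : (1 - τ / 2) * ∏ p ∈ PP z, (1 - g p) ≤ (1 - τ / 2) * PU :=
      mul_le_mul_of_nonneg_left hPV (by linarith)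
    linarith
  · have h1 : PU ≤ (1 + τ) * ((1 - τ / 2) * PU) := by
      have h3 : 0 ≤ PU * (τ * (1 - τ) / 2) := by
        have h4 : 0 ≤ 1 - τ := by linarith
        positivity
      nlinarith
    have h2 : (1 + τ) * ((1 - τ / 2) * PU) ≤ (1 + τ) * ∏ p ∈ PP z, (1 - g p) :=
      mul_le_mul_of_nonneg_left (hFF.trans hFle) (by linarith)
    linarith

private theorem FQ_sup (z b0 : ℕ) (T : Finset ℕ) (h : um z b0 T ≠ 0) :
    ∀ j < z, (T ∩ Pj z j).card ≤ 2 * (b0 + j) + 1 := by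
  intro j hj
  by_contra hcon
  push Not at hcon
  apply h
  unfold um
  refine Finset.prod_eq_zero (mem_range.2 hj) ?_
  exact SK_cc_zero _ _ (by omega)

private theorem FQ_expand (z b0 : ℕ) (g : ℕ → ℝ) :
    UU z b0 g = ∑ T ∈ (PP z).powerset, um z b0 T * ∏ p ∈ T, g p := SJ_A z b0 g

private theorem FQ_ge (z b0 : ℕ) (g : ℕ → ℝ) (h0 : ∀ p, 0 ≤ g p) (h1 : ∀ p, g p ≤ 1) :
    ∏ p ∈ PP z, (1 - g p) ≤ UU z b0 g := by
  unfold UU
  rw [prod_PP]
  refine Finset.prod_le_prod ?_ ?_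
  · intro j _
    exact Finset.prod_nonneg fun p _ => by linarith [h1 p]
  · intro j _
    exact bon_ge _ g (fun p _ => h0 p) (fun p _ => h1 p) _

private theorem FQ_point (z b0 n : ℕ) : (if ∀ p ∈ PP z, ¬ p ∣ n then (1 : ℝ) else 0) ≤
    ∑ T ∈ (PP z).powerset, um z b0 T * (if ∀ p ∈ T, p ∣ n then (1 : ℝ) else 0) := by
  have h := FQ_ge z b0 (fun p => if p ∣ n then (1 : ℝ) else 0)
    (fun p => by split_ifs <;> norm_num) (fun p => by split_ifs <;> norm_num)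
  rw [FQ_expand, SO_one] at h
  simp only [SO_all] at h
  exact h

/-- the sieve weights of precision `τ` and level `z ^ K`, `K ≤ C (1 + log (1/τ))` -/
theorem fund_quant : ∃ C : ℝ, 0 < C ∧ ∀ τ : ℝ, 0 < τ → τ ≤ 1 → ∃ K : ℕ, (K : ℝ) ≤ C * (1 + Real.log (1 / τ)) ∧
    ∀ z : ℕ, 2 ≤ z → ∃ u l : Finset ℕ → ℝ, Fund τ K z u l := by
  obtain ⟨C, hC, hprec⟩ := prec_quant
  refine ⟨4 * C + 10, by positivity, fun τ hτ hτ1 => ?_⟩
  obtain ⟨b0, hb0l, hb0⟩ := hprec τ hτ hτ1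
  refine ⟨4 * b0 + 6, ?_, ?_⟩
  · have h3 : 0 ≤ Real.log (1 / τ) := Real.log_nonneg (by rw [le_div_iff₀ hτ]; linarith)
    push_cast
    nlinarith
  intro z hz
  refine ⟨um z b0, lam z b0, ?_, ?_, ?_, ?_, ?_, ?_, ?_, ?_⟩
  · intro T
    unfold um
    exact SK_prod_abs _ fun j _ => SK_cc_abs _ _
  · exact lam_abs_le z b0
  · intro T hT h
    exact level z b0 (by omega) T hT (FQ_sup z b0 T h)
  · intro T hT h
    exact level z b0 (by omega) T hT (lam_support z b0 T h)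
  · exact FQ_point z b0
  · exact SO_point z b0
  · intro g hg
    rw [← FQ_expand]
    exact (hb0 z g hg).2
  · intro g hg
    rw [← FF_expand]
    exact (hb0 z g hg).1

end Pool.Agent.Lib.MP_42948a_nt.MV
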