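import Pool.Agent.Lib.MP_42948a_nt.EK.TI4
import Pool.Agent.Lib.MP_42948a_nt.EK.T1
import Pool.Agent.Lib.MP_42948a_nt.SV.B1
import Pool.Agent.Lib.MP_42948a_nt.TQ.A3
import Pool.Agent.Lib.MP_42948a_nt.TQ.A4
import Pool.Agent.Lib.MP_42948a_nt.TQ.B5

/-!
# A nonprincipal character is not close to `1` on the primes up to `d ^ (33/200)`: definitions
-/

namespace Pool.Agent.Lib.MP_42948a_nt.MV

open Finset Pool.Agent.Lib.MP_42948a_nt.OA Pool.Agent.Lib.MP_42948a_nt.AC Pool.Agent.Lib.MP_42948a_nt.TQ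
  Pool.Agent.Lib.MP_42948a_nt.PS Pool.Agent.Lib.MP_42948a_nt.EK

open Classical in
/-- the `z`-rough numbers in `(A, B]` coprime to `d` -/
noncomputable def rg (d z A B : ℕ) : Finset ℕ := (Ioc A B).filter (fun n => n.Coprime d ∧ Rough z n)

/-- the logarithmic mass of the rough numbers in `(A, B]` coprime to `d` -/
noncomputable def MS (d z A B : ℕ) : ℝ := ∑ n ∈ rg d z A B, 1 / (n : ℝ)

/-- the density of the rough numbers coprime to `d` -/
noncomputable def VP (d z : ℕ) : ℝ := VV d z * ((d.totient : ℝ) / d)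

/-- the lower end of the window -/
noncomputable def Aw (d : ℕ) : ℕ := ⌊(d : ℝ) ^ (2501 / 10000 : ℝ)⌋₊

/-- the upper end of the window -/
noncomputable def Bw (d : ℕ) : ℕ := ⌊(d : ℝ) ^ (2502 / 10000 : ℝ)⌋₊

/-- the sifting limit -/
noncomputable def zz (c : ℝ) (d : ℕ) : ℕ := ⌊(d : ℝ) ^ c⌋₊

/-- the expected mass of the window -/
noncomputable def Xw (c : ℝ) (d : ℕ) : ℝ := VP d (zz c d) * Real.log ((Bw d : ℝ) / (Aw d : ℝ))

theorem mem_rg {d z A B n : ℕ} : n ∈ rg d z A B ↔ (A < n ∧ n ≤ B) ∧ n.Coprime d ∧ Rough z n := by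
  classical
  unfold rg
  rw [mem_filter, mem_Ioc]

theorem rg_mono {d z A A' B B' : ℕ} (hA : A' ≤ A) (hB : B ≤ B') : rg d z A B ⊆ rg d z A' B' := by
  intro n hn
  rw [mem_rg] at hn ⊢
  exact ⟨⟨by omega, by omega⟩, hn.2⟩

theorem MS_nonneg (d z A B : ℕ) : 0 ≤ MS d z A B := by
  unfold MS
  exact sum_nonneg fun n _ => by positivity

theorem MS_mono {d z A A' B B' : ℕ} (hA : A' ≤ A) (hB : B ≤ B') : MS d z A B ≤ MS d z A' B' := by
  unfold MS
  exact sum_le_sum_of_subset_of_nonneg (rg_mono hA hB) fun n _ _ => by positivity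

theorem MS_split (d z A Y B : ℕ) : MS d z A B ≤ MS d z A Y + MS d z Y B := by
  classical
  unfold MS
  have h1 : rg d z A B ⊆ rg d z A Y ∪ rg d z Y B := by
    intro n hn
    rw [mem_union, mem_rg, mem_rg]
    rw [mem_rg] at hn
    rcases le_or_gt n Y with h | h
    · exact Or.inl ⟨⟨hn.1.1, h⟩, hn.2⟩
    · exact Or.inr ⟨⟨h, hn.1.2⟩, hn.2⟩
  calc ∑ n ∈ rg d z A B, 1 / (n : ℝ) ≤ ∑ n ∈ rg d z A Y ∪ rg d z Y B, 1 / (n : ℝ) :=
        sum_le_sum_of_subset_of_nonneg h1 fun n _ _ => by positivity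
    _ ≤ ∑ n ∈ rg d z A Y, 1 / (n : ℝ) + ∑ n ∈ rg d z Y B, 1 / (n : ℝ) := by
        have h2 := sum_union_inter (s₁ := rg d z A Y) (s₂ := rg d z Y B) (f := fun n : ℕ => 1 / (n : ℝ))
        have h3 : (0 : ℝ) ≤ ∑ n ∈ rg d z A Y ∩ rg d z Y B, 1 / (n : ℝ) := sum_nonneg fun n _ => by positivity
        linarith

theorem VV_nonneg' (d z : ℕ) : 0 ≤ VP d z := by
  unfold VP
  exact mul_nonneg (VV_pos d z).le (by positivity)

theorem VP_le_one (d z : ℕ) : VP d z ≤ 1 := by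
  unfold VP
  have h1 : (d.totient : ℝ) / d ≤ 1 := by
    rcases Nat.eq_zero_or_pos d with h | h
    · subst h
      simp
    · rw [div_le_one (by exact_mod_cast h)]
      exact_mod_cast Nat.totient_le d
  calc VV d z * ((d.totient : ℝ) / d) ≤ 1 * 1 := mul_le_mul (VV_le d z) h1 (by positivity) zero_le_one
    _ = 1 := one_mul 1

end Pool.Agent.Lib.MP_42948a_nt.MV
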