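import Pool.Agent.Lib.MP_42948a_nt.MV.Defs

/-!
# One term of the sieve in a window (job S1)

`P = ∏ p ∈ T, p`. If some `p ∈ T` divides `d`: the filtered set is empty (`n` coprime to `d`) and `∏ gd d p = 0` (`gd_prod`, `TQ/A4.lean`), so the left side is `0`. Otherwise `P` is coprime to `d`,
`∏ gd d p = 1/P` (`gd_prod`), `∀ p ∈ T, p ∣ n ↔ P ∣ n` (distinct primes; `EG_dvd_iff` or `Finset.prod_primes_dvd`), `1 ≤ P ≤ z^K ≤ A`. The `n = P k` with `A < P k ≤ B` are those with `A/P < k ≤ B/P` (natural division;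
`Nat.div_lt_iff_lt_mul`, `Nat.le_div_iff_mul_le`), `n` coprime to `d` iff `k` is. So the sum is `(1/P) * hc d (A/P) (B/P)` (`hc` in `EK/TI0.lean`, `rw1 n = 1/n`; the same computation is in the proof of `typeI`, `EK/TI3.lean`).
`hc_bound` (`EK/TI2b.lean`): `|hc d (A/P) (B/P) - (φ/d) log((B/P)/(A/P))| ≤ 4 D/(A/P)`, `D = #d.divisors ≥ 1`, and the natural quotient `A/P ≥ A/(2P)` (as `A/P ≥ 1`), so `≤ 8 D P/A`. For a natural `N ≥ P`:
`0 ≤ log(N/P) - log⌊N/P⌋ ≤ 1/⌊N/P⌋ ≤ 2 P/N` (`log(1+t) ≤ t`, `N/P < ⌊N/P⌋ + 1`), for `N = A` and `N = B ≥ A`: so `|log((B/P)/(A/P)) - log(B/A)| ≤ 4 P/A`, `φ/d ≤ 1`. In total `(1/P)(8 D P/A + 4 P/A) ≤ 12 D/A`.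
-/

namespace Pool.Agent.Lib.MP_42948a_nt.MV

open Finset Pool.Agent.Lib.MP_42948a_nt.OA Pool.Agent.Lib.MP_42948a_nt.AC Pool.Agent.Lib.MP_42948a_nt.TQ
  Pool.Agent.Lib.MP_42948a_nt.PS Pool.Agent.Lib.MP_42948a_nt.EK

private theorem S1_log (N P : ℕ) (hP : 0 < P) (hN : P ≤ N) :
    0 ≤ Real.log ((N : ℝ) / P) - Real.log ((N / P : ℕ) : ℝ) ∧
      Real.log ((N : ℝ) / P) - Real.log ((N / P : ℕ) : ℝ) ≤ 2 * P / N := by
  obtain ⟨q, hq⟩ : ∃ q : ℕ, q = N / P := ⟨_, rfl⟩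
  have h1 : 1 ≤ q := by
    rw [hq]
    exact Nat.div_pos hN hP
  have h2' : q * P ≤ N := by
    rw [hq]
    exact Nat.div_mul_le_self N P
  have h3' : N < P * (q + 1) := by
    rw [hq]
    exact Nat.lt_mul_div_succ N hP
  rw [← hq]
  have hq1 : (1 : ℝ) ≤ q := by exact_mod_cast h1
  have hq0 : (0 : ℝ) < q := by linarith
  have hP0 : (0 : ℝ) < P := by exact_mod_cast hP
  have hN0 : (0 : ℝ) < N := by exact_mod_cast hP.trans_le hN
  have h2 : (q : ℝ) * P ≤ N := by exact_mod_cast h2'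
  have h3 : (N : ℝ) < P * (q + 1) := by exact_mod_cast h3'
  rw [← Real.log_div (by positivity) (by positivity)]
  constructor
  · apply Real.log_nonneg
    rw [le_div_iff₀ hq0, le_div_iff₀ hP0]
    linarith
  · refine (Real.log_le_sub_one_of_pos (by positivity)).trans ?_
    have h4 : (N : ℝ) / P / q - 1 ≤ 1 / q := by
      rw [div_div, sub_le_iff_le_add, div_le_iff₀ (by positivity)]
      have h5 : (1 / (q : ℝ) + 1) * (P * q) = P * (q + 1) := by
        field_simp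
        ring
      rw [h5]
      exact h3.le
    have h6 : 1 / (q : ℝ) ≤ 2 * P / N := by
      rw [div_le_div_iff₀ hq0 hN0]
      nlinarith
    exact h4.trans h6

private theorem S1_quot (N P : ℕ) (hP : 0 < P) (hN : P ≤ N) :
    (N : ℝ) ≤ 2 * P * ((N / P : ℕ) : ℝ) := by
  obtain ⟨q, hq⟩ : ∃ q : ℕ, q = N / P := ⟨_, rfl⟩
  have h1 : 1 ≤ q := by
    rw [hq]
    exact Nat.div_pos hN hP
  have h3' : N < P * (q + 1) := by
    rw [hq]
    exact Nat.lt_mul_div_succ N hP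
  rw [← hq]
  have h4 : N ≤ 2 * P * q := by nlinarith
  exact_mod_cast h4

open Classical in
private theorem S1_reindex (d P A B : ℕ) (hP : 0 < P) (hPd : P.Coprime d) :
    ∑ n ∈ ((Ioc A B).filter (fun n : ℕ => n.Coprime d)).filter (fun n : ℕ => P ∣ n), 1 / (n : ℝ) =
      1 / (P : ℝ) * hc d (A / P) (B / P) := by
  unfold hc
  rw [Finset.mul_sum]
  symm
  refine Finset.sum_bij (fun k _ => P * k) ?_ ?_ ?_ ?_
  · intro k hk
    rw [mem_filter, mem_Ioc] at hk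
    rw [mem_filter, mem_filter, mem_Ioc]
    refine ⟨⟨⟨?_, ?_⟩, Nat.Coprime.mul_left hPd hk.2⟩, dvd_mul_right P k⟩
    · have := (Nat.div_lt_iff_lt_mul hP).mp hk.1.1
      rwa [mul_comm]
    · have := (Nat.le_div_iff_mul_le hP).mp hk.1.2
      rwa [mul_comm]
  · intro a _ b _ hab
    exact Nat.eq_of_mul_eq_mul_left hP hab
  · intro n hn
    rw [mem_filter, mem_filter, mem_Ioc] at hn
    obtain ⟨⟨⟨h1, h2⟩, h3⟩, k, rfl⟩ := hn
    refine ⟨k, ?_, rfl⟩
    rw [mem_filter, mem_Ioc]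
    refine ⟨⟨?_, ?_⟩, Nat.Coprime.coprime_mul_left h3⟩
    · rw [Nat.div_lt_iff_lt_mul hP, mul_comm]
      exact h1
    · rw [Nat.le_div_iff_mul_le hP, mul_comm]
      exact h2
  · intro k _
    unfold rw1
    push_cast
    rw [one_div_mul_one_div]

open Classical in
theorem WT_bound (d : ℕ) (hd : 0 < d) (z K A B : ℕ) (hz : 2 ≤ z) (hA : z ^ K ≤ A) (hAB : A ≤ B) (T : Finset ℕ) (hT : T ∈ TT z K) :
    |∑ n ∈ ((Ioc A B).filter (fun n : ℕ => n.Coprime d)).filter (fun n : ℕ => ∀ p ∈ T, p ∣ n), 1 / (n : ℝ) -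
        ((d.totient : ℝ) / d * Real.log ((B : ℝ) / A)) * ∏ p ∈ T, gd d p| ≤ 12 * (d.divisors.card : ℝ) / A := by
  have hA1 : 1 ≤ A := (Nat.one_le_pow K z (by omega)).trans hA
  have hA0 : (0 : ℝ) < A := by exact_mod_cast hA1
  have hD : (1 : ℝ) ≤ (d.divisors.card : ℝ) := by
    have : 0 < d.divisors.card := Finset.card_pos.mpr ⟨1, Nat.one_mem_divisors.mpr hd.ne'⟩
    exact_mod_cast this
  have hmem := mem_filter.1 hT
  have hTp : ∀ p ∈ T, p.Prime := fun p hp => (mem_filter.1 (mem_powerset.1 hmem.1 hp)).2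
  by_cases hdv : ∀ p ∈ T, ¬ p ∣ d
  · obtain ⟨P, hPdef⟩ : ∃ P : ℕ, P = ∏ p ∈ T, p := ⟨_, rfl⟩
    have hP : 0 < P := by
      rw [hPdef]
      exact Finset.prod_pos fun p hp => (hTp p hp).pos
    have hPA : P ≤ A := by
      rw [hPdef]
      exact hmem.2.trans hA
    have hPd : P.Coprime d := by
      rw [hPdef]
      exact Nat.Coprime.prod_left fun p hp => (Nat.Prime.coprime_iff_not_dvd (hTp p hp)).mpr (hdv p hp)
    have hP0 : (0 : ℝ) < P := by exact_mod_cast hP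
    have e1 : ((Ioc A B).filter (fun n : ℕ => n.Coprime d)).filter (fun n : ℕ => ∀ p ∈ T, p ∣ n) =
        ((Ioc A B).filter (fun n : ℕ => n.Coprime d)).filter (fun n : ℕ => P ∣ n) := by
      refine Finset.filter_congr fun n _ => ?_
      rw [EG_dvd_iff T hTp, hPdef]
    have e2 : ∏ p ∈ T, gd d p = 1 / (P : ℝ) := by
      rw [gd_prod, if_pos hdv, hPdef]
      push_cast
      rfl
    rw [e1, e2, S1_reindex d P A B hP hPd]
    obtain ⟨ρ, hρ⟩ : ∃ ρ : ℝ, ρ = (d.totient : ℝ) / d := ⟨_, rfl⟩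
    have hρ0 : 0 ≤ ρ := by
      rw [hρ]
      positivity
    have hρ1 : ρ ≤ 1 := by
      rw [hρ, div_le_one (by exact_mod_cast hd)]
      exact_mod_cast Nat.totient_le d
    have ha : 1 ≤ A / P := Nat.div_pos hPA hP
    have ha0 : (0 : ℝ) < ((A / P : ℕ) : ℝ) := by exact_mod_cast ha
    have h1 := hc_bound d hd (A / P) (B / P) ha (Nat.div_le_div_right hAB)
    rw [← hρ] at h1 ⊢
    obtain ⟨h2, h3⟩ := S1_log A P hP hPA
    obtain ⟨h4, h5⟩ := S1_log B P hP (hPA.trans hAB)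
    have hB0 : (0 : ℝ) < B := by exact_mod_cast hA1.trans hAB
    have hb0 : (0 : ℝ) < ((B / P : ℕ) : ℝ) := by
      exact_mod_cast Nat.div_pos (hPA.trans hAB) hP
    have h6 : 2 * (P : ℝ) / B ≤ 2 * P / A := by
      refine div_le_div_of_nonneg_left (by positivity) hA0 ?_
      exact_mod_cast hAB
    have h7 : 4 * (d.divisors.card : ℝ) / ((A / P : ℕ) : ℝ) ≤ 8 * (d.divisors.card : ℝ) * P / A := by
      rw [div_le_div_iff₀ ha0 hA0]
      have h8 := S1_quot A P hP hPA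
      have h9 : 4 * (d.divisors.card : ℝ) * (A : ℝ) ≤ 4 * (d.divisors.card : ℝ) * (2 * P * ((A / P : ℕ) : ℝ)) :=
        mul_le_mul_of_nonneg_left h8 (by positivity)
      linarith
    have h10 : |Real.log (((B / P : ℕ) : ℝ) / ((A / P : ℕ) : ℝ)) - Real.log ((B : ℝ) / A)| ≤ 2 * P / A := by
      rw [Real.log_div hb0.ne' ha0.ne', Real.log_div hB0.ne' hA0.ne']
      rw [Real.log_div hA0.ne' hP0.ne'] at h2 h3
      rw [Real.log_div hB0.ne' hP0.ne'] at h4 h5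
      rw [abs_le]
      constructor <;> linarith
    have h11 : |ρ * Real.log (((B / P : ℕ) : ℝ) / ((A / P : ℕ) : ℝ)) - ρ * Real.log ((B : ℝ) / A)| ≤ 2 * P / A := by
      rw [← mul_sub, abs_mul, abs_of_nonneg hρ0]
      calc ρ * |Real.log (((B / P : ℕ) : ℝ) / ((A / P : ℕ) : ℝ)) - Real.log ((B : ℝ) / A)| ≤
          1 * |Real.log (((B / P : ℕ) : ℝ) / ((A / P : ℕ) : ℝ)) - Real.log ((B : ℝ) / A)| :=
            mul_le_mul_of_nonneg_right hρ1 (abs_nonneg _)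
        _ ≤ 2 * P / A := by
            rw [one_mul]
            exact h10
    have h12 : 1 / (P : ℝ) * hc d (A / P) (B / P) - ρ * Real.log ((B : ℝ) / A) * (1 / (P : ℝ)) =
        1 / (P : ℝ) * (hc d (A / P) (B / P) - ρ * Real.log ((B : ℝ) / A)) := by ring
    rw [h12, abs_mul, abs_of_nonneg (by positivity : (0 : ℝ) ≤ 1 / (P : ℝ))]
    have h13 : |hc d (A / P) (B / P) - ρ * Real.log ((B : ℝ) / A)| ≤
        8 * (d.divisors.card : ℝ) * P / A + 2 * P / A :=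
      (abs_sub_le _ (ρ * Real.log (((B / P : ℕ) : ℝ) / ((A / P : ℕ) : ℝ))) _).trans
        (add_le_add (h1.trans h7) h11)
    calc 1 / (P : ℝ) * |hc d (A / P) (B / P) - ρ * Real.log ((B : ℝ) / A)| ≤
        1 / (P : ℝ) * (8 * (d.divisors.card : ℝ) * P / A + 2 * P / A) :=
          mul_le_mul_of_nonneg_left h13 (by positivity)
      _ = (8 * (d.divisors.card : ℝ) + 2) / A := by
          field_simp
      _ ≤ 12 * (d.divisors.card : ℝ) / A := by
          refine div_le_div_of_nonneg_right ?_ hA0.le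
          linarith
  · have e2 : ∏ p ∈ T, gd d p = 0 := by
      rw [gd_prod, if_neg hdv]
    push Not at hdv
    obtain ⟨p, hp, hpd⟩ := hdv
    have e1 : ((Ioc A B).filter (fun n : ℕ => n.Coprime d)).filter (fun n : ℕ => ∀ p ∈ T, p ∣ n) = ∅ := by
      rw [Finset.filter_eq_empty_iff]
      intro n hn hall
      have h1 := (mem_filter.1 hn).2
      exact (hTp p hp).one_lt.ne' (Nat.eq_one_of_dvd_coprimes h1 (hall p hp) hpd)
    rw [e1, e2, Finset.sum_empty, mul_zero, sub_zero, abs_zero]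
    positivity

end Pool.Agent.Lib.MP_42948a_nt.MV
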