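import Pool.Agent.Lib.MP_42948a_nt.MV.S1

/-!
# The sieve in a window (job S2)

`E = 12 z^K D/A`, `D = #d.divisors`: `∑_{T ∈ TT z K} 12 D/A ≤ z^K 12 D/A` (`card_TT`, `TQ/A4.lean`). `X = (φ/d) log(B/A) ≥ 0`, `w n = 1/n`, `g = gd d` (`adm_gd`), `R T = 12 D/A` (`WT_bound`), `VP d z log(B/A) = X VV d z`.
`window_up`: `∑_n rho z u n/n = ∑_{T ∈ PP z powerset} u T ∑_{n, T ∣ n} 1/n` (`A3_exch`, `rho` by definition), `A3_err` with `c = u` and `u_sum` (`adm_gd`).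
`window_low`: `sieve2` (`TQ/A3.lean`); the members of `Ioc A B` coprime to `d` without prime divisor in `PP z` are the rough ones (`n > A ≥ 0` so `n > 0`; `Rough` in `OA/Defs.lean`; `B5_rough` in `TQ/B5.lean` may be used).
`MS_le_rho`: `rho_ge_one`, `rho_nonneg` (`TQ/B5.lean`).
-/

namespace Pool.Agent.Lib.MP_42948a_nt.MV

open Finset Pool.Agent.Lib.MP_42948a_nt.OA Pool.Agent.Lib.MP_42948a_nt.AC Pool.Agent.Lib.MP_42948a_nt.TQ
  Pool.Agent.Lib.MP_42948a_nt.PS Pool.Agent.Lib.MP_42948a_nt.EK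

private theorem S2_rough {z n : ℕ} (hn : 0 < n) : (∀ p ∈ PP z, ¬ p ∣ n) ↔ Rough z n := by
  constructor
  · intro h
    refine ⟨hn, fun p hp hpn => ?_⟩
    by_contra hz
    push Not at hz
    exact h p (by unfold PP; rw [mem_filter, mem_Icc]; exact ⟨⟨hp.one_lt.le, hz⟩, hp⟩) hpn
  · rintro ⟨-, h⟩ p hp hpn
    unfold PP at hp
    rw [mem_filter, mem_Icc] at hp
    exact absurd (h p hp.2 hpn) (by omega)

private theorem S2_pos {z K A : ℕ} (hz : 2 ≤ z) (hA : z ^ K ≤ A) : 0 < A :=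
  lt_of_lt_of_le (pow_pos (by omega) K) hA

private theorem S2_X {d z K A B : ℕ} (hz : 2 ≤ z) (hA : z ^ K ≤ A) (hAB : A ≤ B) :
    0 ≤ (d.totient : ℝ) / d * Real.log ((B : ℝ) / A) := by
  have h0 : (0 : ℝ) < A := by exact_mod_cast S2_pos hz hA
  have h1 : (1 : ℝ) ≤ (B : ℝ) / A := by
    rw [one_le_div h0]
    exact_mod_cast hAB
  exact mul_nonneg (by positivity) (Real.log_nonneg h1)

private theorem S2_card (d z K A : ℕ) :
    ∑ _T ∈ TT z K, 12 * (d.divisors.card : ℝ) / A ≤ 12 * (z : ℝ) ^ K * (d.divisors.card : ℝ) / A := by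
  rw [sum_const, nsmul_eq_mul]
  have h1 := card_TT z K
  have h2 : (0 : ℝ) ≤ 12 * (d.divisors.card : ℝ) / A := by positivity
  calc ((TT z K).card : ℝ) * (12 * (d.divisors.card : ℝ) / A) ≤
        (z : ℝ) ^ K * (12 * (d.divisors.card : ℝ) / A) := mul_le_mul_of_nonneg_right h1 h2
    _ = 12 * (z : ℝ) ^ K * (d.divisors.card : ℝ) / A := by ring

open Classical in
theorem window_up {τ : ℝ} {K z : ℕ} {u l : Finset ℕ → ℝ} (hF : Fund τ K z u l) (hz : 2 ≤ z) (d : ℕ) (hd : 0 < d) (A B : ℕ)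
    (hA : z ^ K ≤ A) (hAB : A ≤ B) :
    ∑ n ∈ (Ioc A B).filter (fun n : ℕ => n.Coprime d), rho z u n / n ≤
      (1 + τ) * (VP d z * Real.log ((B : ℝ) / A)) + 12 * (z : ℝ) ^ K * (d.divisors.card : ℝ) / A := by
  have hX := S2_X (d := d) hz hA hAB
  have h1 := A3_err z K ((Ioc A B).filter (fun n : ℕ => n.Coprime d)) (fun n => 1 / (n : ℝ)) (gd d)
    ((d.totient : ℝ) / d * Real.log ((B : ℝ) / A)) (fun _ => 12 * (d.divisors.card : ℝ) / A) u
    hF.u_abs hF.u_sup (fun T hT => WT_bound d hd z K A B hz hA hAB T hT)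
  rw [← A3_exch] at h1
  have h2 : ∑ n ∈ (Ioc A B).filter (fun n : ℕ => n.Coprime d), rho z u n / n =
      ∑ n ∈ (Ioc A B).filter (fun n : ℕ => n.Coprime d), (1 / (n : ℝ)) *
        ∑ T ∈ (PP z).powerset, u T * (if ∀ p ∈ T, p ∣ n then (1 : ℝ) else 0) := by
    refine sum_congr rfl fun n _ => ?_
    unfold rho
    ring
  rw [h2]
  have h3 := (abs_le.1 h1).2
  have h4 := mul_le_mul_of_nonneg_left (hF.u_sum (gd d) (adm_gd d z)) hX
  have h5 := S2_card d z K A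
  have h6 : VP d z * Real.log ((B : ℝ) / A) =
      (d.totient : ℝ) / d * Real.log ((B : ℝ) / A) * ∏ p ∈ PP z, (1 - gd d p) := by
    unfold VP VV
    ring
  rw [h6]
  nlinarith

theorem window_low {τ : ℝ} {K z : ℕ} {u l : Finset ℕ → ℝ} (hF : Fund τ K z u l) (hz : 2 ≤ z) (d : ℕ) (hd : 0 < d) (A B : ℕ)
    (hA : z ^ K ≤ A) (hAB : A ≤ B) :
    (1 - τ) * (VP d z * Real.log ((B : ℝ) / A)) - 12 * (z : ℝ) ^ K * (d.divisors.card : ℝ) / A ≤ MS d z A B := by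
  classical
  have hX := S2_X (d := d) hz hA hAB
  have h1 := sieve2 hF ((Ioc A B).filter (fun n : ℕ => n.Coprime d)) (fun n => 1 / (n : ℝ)) (gd d)
    ((d.totient : ℝ) / d * Real.log ((B : ℝ) / A)) (fun _ => 12 * (d.divisors.card : ℝ) / A)
    (fun n _ => by positivity) (adm_gd d z) hX (fun T hT => WT_bound d hd z K A B hz hA hAB T hT)
  have h2 : ∑ n ∈ ((Ioc A B).filter (fun n : ℕ => n.Coprime d)).filter
      (fun n : ℕ => ∀ p ∈ PP z, ¬ p ∣ n), 1 / (n : ℝ) = MS d z A B := by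
    unfold MS
    refine sum_congr ?_ fun n _ => rfl
    ext n
    rw [mem_filter, mem_filter, mem_rg, mem_Ioc]
    constructor
    · rintro ⟨⟨h3, h4⟩, h5⟩
      exact ⟨h3, h4, (S2_rough (by omega)).1 h5⟩
    · rintro ⟨h3, h4, h5⟩
      exact ⟨⟨h3, h4⟩, (S2_rough (by omega)).2 h5⟩
  rw [h2] at h1
  have h3 := (abs_le.1 h1).1
  have h5 := S2_card d z K A
  have h6 : VP d z * Real.log ((B : ℝ) / A) =
      (d.totient : ℝ) / d * Real.log ((B : ℝ) / A) * ∏ p ∈ PP z, (1 - gd d p) := by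
    unfold VP VV
    ring
  rw [h6]
  nlinarith

open Classical in
theorem MS_le_rho {τ : ℝ} {K z : ℕ} {u l : Finset ℕ → ℝ} (hF : Fund τ K z u l) (d A B : ℕ) :
    MS d z A B ≤ ∑ n ∈ (Ioc A B).filter (fun n : ℕ => n.Coprime d), rho z u n / n := by
  unfold MS
  calc ∑ n ∈ rg d z A B, 1 / (n : ℝ) ≤ ∑ n ∈ rg d z A B, rho z u n / n := by
        refine sum_le_sum fun n hn => ?_
        have h1 := rho_ge_one hF (mem_rg.1 hn).2.2
        exact div_le_div_of_nonneg_right h1 (Nat.cast_nonneg n)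
    _ ≤ ∑ n ∈ (Ioc A B).filter (fun n : ℕ => n.Coprime d), rho z u n / n := by
        refine sum_le_sum_of_subset_of_nonneg (fun n hn => ?_) fun n _ _ =>
          div_nonneg (rho_nonneg hF n) (Nat.cast_nonneg n)
        rw [mem_rg] at hn
        rw [mem_filter, mem_Ioc]
        exact ⟨hn.1, hn.2.1⟩

end Pool.Agent.Lib.MP_42948a_nt.MV
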