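import Pool.Agent.Lib.MP_42948a_nt.MV.Defs

/-!
# Sums over primes (job S5)

`PW d v u` (`EK/Defs.lean`) is contained in `Pri (d^v) (d^u)` (`mem_Pri`, `SV/Defs.lean`; for `d ≥ 1`), so by `mertA` (`SV/B1.lean`) for `0 < v ≤ u`, `d^v ≥ 2`: `∑_{p ∈ PW d v u} 1/p ≤ log(u/v) + C/(v log d)` (`log (d^v) = v log d`).
`prime_top`: `log(.2502/.165) < .41632`, i.e. `exp(.4168) > .2502/.165 = 1.516364` (`Real.quadratic_le_exp_of_nonneg` is too weak; `Real.sum_le_exp_of_nonneg` with 6 terms, `norm_num`).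
`prime_mid`: `S0 = max 1 (log((33/200)/c) + 1)`. `prime_win`: `log((j+1)/j) ≤ log 2 ≤ 1`, all `j ∈ [1, N]` at once (`C/(j s log d) ≤ C/(s log d) ≤ 1` for large `d`).
-/

namespace Pool.Agent.Lib.MP_42948a_nt.MV

open Finset Pool.Agent.Lib.MP_42948a_nt.OA Pool.Agent.Lib.MP_42948a_nt.AC Pool.Agent.Lib.MP_42948a_nt.TQ
  Pool.Agent.Lib.MP_42948a_nt.PS Pool.Agent.Lib.MP_42948a_nt.EK

private theorem S5_d0 (C v ε : ℝ) (hv : 0 < v) (hε : 0 < ε) : ∃ d0 : ℕ, ∀ d : ℕ, d0 ≤ d →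
    1 ≤ d ∧ 2 ≤ (d : ℝ) ^ v ∧ 0 < Real.log d ∧ C / (v * Real.log d) ≤ ε := by
  refine ⟨⌈Real.exp (max (Real.log 2 / v) (C / (v * ε)))⌉₊, fun d hd => ?_⟩
  have h1 : Real.exp (max (Real.log 2 / v) (C / (v * ε))) ≤ (d : ℝ) :=
    (Nat.le_ceil _).trans (by exact_mod_cast hd)
  have hd0 : (0 : ℝ) < d := (Real.exp_pos _).trans_le h1
  have h2 : max (Real.log 2 / v) (C / (v * ε)) ≤ Real.log d := (Real.le_log_iff_exp_le hd0).2 h1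
  have h3 : Real.log 2 / v ≤ Real.log d := (le_max_left _ _).trans h2
  have h4 : C / (v * ε) ≤ Real.log d := (le_max_right _ _).trans h2
  have hl2 : 0 < Real.log 2 := Real.log_pos (by norm_num)
  have hL : 0 < Real.log d := (div_pos hl2 hv).trans_le h3
  refine ⟨by exact_mod_cast Nat.one_le_iff_ne_zero.2 (by rintro rfl; simp at hd0), ?_, hL, ?_⟩
  · rw [Real.rpow_def_of_pos hd0]
    calc (2 : ℝ) = Real.exp (Real.log 2) := (Real.exp_log (by norm_num)).symm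
      _ ≤ Real.exp (Real.log d * v) := Real.exp_le_exp.2 ((div_le_iff₀ hv).1 h3)
  · rw [div_le_iff₀ (mul_pos hv hL)]
    rw [div_le_iff₀ (mul_pos hv hε)] at h4
    linarith

private theorem S5_main : ∃ C : ℝ, 0 ≤ C ∧ ∀ d : ℕ, 1 ≤ d → ∀ v u : ℝ, 0 < v → v ≤ u →
    2 ≤ (d : ℝ) ^ v → ∑ p ∈ PW d v u, 1 / (p : ℝ) ≤ Real.log (u / v) + C / (v * Real.log d) := by
  obtain ⟨C, hC0, hC⟩ := SV.mertA
  refine ⟨C, hC0, fun d hd v u hv hvu h2 => ?_⟩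
  have hd1 : (1 : ℝ) ≤ d := by exact_mod_cast hd
  have hd0 : (0 : ℝ) < d := by linarith
  have hlv : Real.log ((d : ℝ) ^ v) = v * Real.log d := Real.log_rpow hd0 v
  have hlu : Real.log ((d : ℝ) ^ u) = u * Real.log d := Real.log_rpow hd0 u
  have hL : 0 < Real.log d := by
    have h3 : 0 < v * Real.log d := by
      rw [← hlv]
      exact Real.log_pos (by linarith)
    exact (mul_pos_iff_of_pos_left hv).1 h3
  have h4 := hC ((d : ℝ) ^ v) ((d : ℝ) ^ u) h2 (Real.rpow_le_rpow_of_exponent_le hd1 hvu)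
  rw [hlv, hlu, mul_div_mul_right u v hL.ne'] at h4
  have h5 := (abs_le.1 h4).2
  have hsub : PW d v u ⊆ SV.Pri ((d : ℝ) ^ v) ((d : ℝ) ^ u) := by
    intro p hp
    unfold PW at hp
    rw [mem_filter, mem_Icc] at hp
    obtain ⟨⟨-, hp1⟩, hp2, hp3, -⟩ := hp
    rw [SV.mem_Pri (Real.rpow_nonneg hd0.le v)]
    refine ⟨hp3, hp2, ?_⟩
    have h6 : (p : ℝ) ≤ (⌊(d : ℝ) ^ u⌋₊ : ℝ) := by exact_mod_cast hp1
    exact h6.trans (Nat.floor_le (Real.rpow_nonneg hd0.le u))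
  have h7 : ∑ p ∈ PW d v u, 1 / (p : ℝ) ≤ ∑ p ∈ SV.Pri ((d : ℝ) ^ v) ((d : ℝ) ^ u), 1 / (p : ℝ) :=
    sum_le_sum_of_subset_of_nonneg hsub fun p _ _ => by positivity
  linarith

theorem prime_top : ∃ d0 : ℕ, ∀ d : ℕ, d0 ≤ d → ∑ p ∈ PW d (33 / 200) (2502 / 10000), 1 / (p : ℝ) ≤ 417 / 1000 := by
  obtain ⟨C, hC0, hC⟩ := S5_main
  obtain ⟨d0, hd0⟩ := S5_d0 C (33 / 200) (2 / 10000) (by norm_num) (by norm_num)
  refine ⟨d0, fun d hd => ?_⟩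
  obtain ⟨h1, h2, h3, h4⟩ := hd0 d hd
  have h5 := hC d h1 (33 / 200) (2502 / 10000) (by norm_num) (by norm_num) h2
  have h6 : Real.log ((2502 / 10000 : ℝ) / (33 / 200)) ≤ 4168 / 10000 := by
    rw [Real.log_le_iff_le_exp (by norm_num)]
    refine le_trans ?_ (Real.sum_le_exp_of_nonneg (by norm_num : (0 : ℝ) ≤ 4168 / 10000) 6)
    norm_num [Finset.sum_range_succ, Nat.factorial]
  linarith

theorem prime_mid (c : ℝ) (hc : 0 < c) (hc1 : c ≤ 33 / 200) : ∃ S0 : ℝ, 1 ≤ S0 ∧ ∃ d0 : ℕ, ∀ d : ℕ, d0 ≤ d →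
    ∑ p ∈ PW d c (33 / 200), 1 / (p : ℝ) ≤ S0 := by
  obtain ⟨C, hC0, hC⟩ := S5_main
  obtain ⟨d0, hd0⟩ := S5_d0 C c 1 hc one_pos
  refine ⟨max 1 (Real.log ((33 / 200) / c) + 1), le_max_left _ _, d0, fun d hd => ?_⟩
  obtain ⟨h1, h2, h3, h4⟩ := hd0 d hd
  have h5 := hC d h1 c (33 / 200) hc hc1 h2
  exact (by linarith : _ ≤ Real.log ((33 / 200) / c) + 1).trans (le_max_right _ _)

theorem prime_win (s : ℝ) (hs : 0 < s) (N : ℕ) : ∃ d0 : ℕ, ∀ d : ℕ, d0 ≤ d → ∀ j ∈ Icc 1 N,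
    ∑ p ∈ PW d ((j : ℝ) * s) (((j : ℝ) + 1) * s), rw1 p ≤ 2 := by
  obtain ⟨C, hC0, hC⟩ := S5_main
  obtain ⟨d0, hd0⟩ := S5_d0 C s 1 hs one_pos
  refine ⟨d0, fun d hd j hj => ?_⟩
  obtain ⟨h1, h2, h3, h4⟩ := hd0 d hd
  have hj1 : (1 : ℝ) ≤ j := by exact_mod_cast (mem_Icc.1 hj).1
  have hj0 : (0 : ℝ) < j := by linarith
  have hd1 : (1 : ℝ) ≤ d := by exact_mod_cast h1
  have hsj : s ≤ (j : ℝ) * s := by nlinarith
  have h2' : 2 ≤ (d : ℝ) ^ ((j : ℝ) * s) := h2.trans (Real.rpow_le_rpow_of_exponent_le hd1 hsj)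
  have h5 := hC d h1 ((j : ℝ) * s) (((j : ℝ) + 1) * s) (mul_pos hj0 hs) (by nlinarith) h2'
  have h6 : C / ((j : ℝ) * s * Real.log d) ≤ C / (s * Real.log d) := by
    refine div_le_div_of_nonneg_left hC0 (mul_pos hs h3) ?_
    exact mul_le_mul_of_nonneg_right hsj h3.le
  have h7 : Real.log (((j : ℝ) + 1) * s / ((j : ℝ) * s)) ≤ 1 := by
    rw [mul_div_mul_right _ _ hs.ne']
    have h8 : ((j : ℝ) + 1) / j ≤ 2 := by
      rw [div_le_iff₀ hj0]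
      linarith
    have h9 : Real.log (((j : ℝ) + 1) / j) ≤ ((j : ℝ) + 1) / j - 1 :=
      Real.log_le_sub_one_of_pos (by positivity)
    linarith
  have h10 : ∑ p ∈ PW d ((j : ℝ) * s) (((j : ℝ) + 1) * s), rw1 p =
      ∑ p ∈ PW d ((j : ℝ) * s) (((j : ℝ) + 1) * s), 1 / (p : ℝ) := rfl
  rw [h10]
  linarith

end Pool.Agent.Lib.MP_42948a_nt.MV
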